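import Mathlib
import Pool.Agent.MP_026d7f_an.Defs

-- part MP_026d7f_an.Hull
section

namespace Pool.Agent.MP_026d7f_an

open Set Module

/-- The convex hull of a compact set in a finite-dimensional normed space is compact. -/
theorem isCompact_convexHull_of_isCompact {E : Type*} [NormedAddCommGroup E] [NormedSpace ℝ E]
    [FiniteDimensional ℝ E] {K : Set E} (hK : IsCompact K) : IsCompact (convexHull ℝ K) := by
  classical
  let C : ℕ → Set E := fun m =>
    (fun p : (Fin m → ℝ) × (Fin m → E) => ∑ i, p.1 i • p.2 i) ''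
      (stdSimplex ℝ (Fin m) ×ˢ Set.pi Set.univ (fun _ => K))
  have hC : ∀ m, IsCompact (C m) := by
    intro m
    apply IsCompact.image
    · exact (isCompact_stdSimplex ℝ (Fin m)).prod (isCompact_univ_pi fun _ => hK)
    · fun_prop
  have hEq : convexHull ℝ K = ⋃ m ∈ Set.Iic (finrank ℝ E + 1), C m := by
    apply Set.Subset.antisymm
    · intro x hx
      obtain ⟨ι, hι, z, w, hz, hind, hw, hw1, hx⟩ := eq_pos_convex_span_of_mem_convexHull hx
      have hcard : Fintype.card ι ≤ finrank ℝ E + 1 :=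
        hind.card_le_finrank_succ.trans (Nat.add_le_add_right (Submodule.finrank_le _) 1)
      let e := (Fintype.equivFin ι).symm
      simp only [Set.mem_iUnion]
      refine ⟨Fintype.card ι, hcard, (w ∘ e, z ∘ e), ⟨⟨fun i => (hw _).le, ?_⟩, ?_⟩, ?_⟩
      · simpa [hw1] using (e.sum_comp w).trans hw1
      · intro i _
        exact hz ⟨e i, rfl⟩
      · simpa [hx] using (e.sum_comp (fun i => w i • z i)).trans hx
    · intro x hx
      simp only [Set.mem_iUnion] at hx
      obtain ⟨m, -, ⟨w, z⟩, ⟨⟨hw0, hw1⟩, hz⟩, rfl⟩ := hx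
      exact (convex_convexHull ℝ K).sum_mem (fun i _ => hw0 i) hw1
        (fun i _ => subset_convexHull ℝ K (hz i (Set.mem_univ _)))
  rw [hEq]
  exact (Set.finite_Iic _).isCompact_biUnion fun m _ => hC m

/-- A point `s • f` of the hull of a compact set, with `s` maximal, is a convex combination of at
most `finrank` points. -/
theorem exists_small_repr {E : Type*} [NormedAddCommGroup E] [NormedSpace ℝ E]
    [FiniteDimensional ℝ E] {K : Set E} (hK : IsCompact K) {f : E} (hf : f ≠ 0) {s₀ : ℝ}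
    (hs₀ : s₀ • f ∈ convexHull ℝ K) :
    ∃ (m : ℕ) (z : Fin m → E) (w : Fin m → ℝ) (s : ℝ), m ≤ finrank ℝ E ∧ (∀ i, z i ∈ K) ∧
      (∀ i, 0 < w i) ∧ ∑ i, w i = 1 ∧ ∑ i, w i • z i = s • f ∧ s₀ ≤ s := by
  classical
  have hH := isCompact_convexHull_of_isCompact hK
  let S : Set ℝ := (fun s : ℝ => s • f) ⁻¹' convexHull ℝ K
  have hS : IsCompact S := by
    have hemb : Topology.IsClosedEmbedding (fun s : ℝ => s • f) :=
      isClosedEmbedding_smul_left hf
    exact hemb.isCompact_preimage hH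
  obtain ⟨s, hsS, hsmax⟩ := hS.exists_isMaxOn ⟨s₀, hs₀⟩ continuousOn_id
  obtain ⟨ι, hι, z, w, hz, hind, hw, hw1, hx⟩ := eq_pos_convex_span_of_mem_convexHull hsS
  have hcard : Fintype.card ι ≤ finrank ℝ E + 1 :=
    hind.card_le_finrank_succ.trans (Nat.add_le_add_right (Submodule.finrank_le _) 1)
  have hcard' : Fintype.card ι ≤ finrank ℝ E := by
    by_contra hlt
    have heq : Fintype.card ι = finrank ℝ E + 1 := by omega
    have htop := hind.affineSpan_eq_top_iff_card_eq_finrank_add_one.2 heq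
    let b : AffineBasis ι ℝ E := ⟨z, hind, htop⟩
    have hint : s • f ∈ interior (convexHull ℝ (range b)) := by
      rw [b.interior_convexHull]
      intro i
      have h1 : s • f = Finset.univ.affineCombination ℝ b w := by
        rw [Finset.affineCombination_eq_linear_combination _ _ _ hw1]
        exact hx.symm
      rw [h1, b.coord_apply_combination_of_mem (Finset.mem_univ i) hw1]
      exact hw i
    have hsub : convexHull ℝ (range b) ⊆ convexHull ℝ K := convexHull_mono hz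
    have hnhds : S ∈ nhds s := by
      have : convexHull ℝ K ∈ nhds (s • f) :=
        Filter.mem_of_superset (mem_interior_iff_mem_nhds.1 hint) hsub
      exact (by fun_prop : Continuous (fun s : ℝ => s • f)).continuousAt.preimage_mem_nhds this
    obtain ⟨ε, hε, hball⟩ := Metric.mem_nhds_iff.1 hnhds
    have hmem : s + ε / 2 ∈ S := hball (by
      rw [Metric.mem_ball, Real.dist_eq, abs_lt]; constructor <;> linarith)
    have := hsmax hmem
    simp only [Set.mem_ofPred_eq, id] at this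
    linarith
  let e := (Fintype.equivFin ι).symm
  refine ⟨Fintype.card ι, z ∘ e, w ∘ e, s, hcard', fun i => hz ⟨e i, rfl⟩, fun i => hw _, ?_, ?_,
    hsmax hs₀⟩
  · simpa [hw1] using (e.sum_comp w).trans hw1
  · simpa [hx] using (e.sum_comp (fun i => w i • z i)).trans hx

end Pool.Agent.MP_026d7f_an

end

-- part MP_026d7f_an.Ineq
section

namespace Pool.Agent.MP_026d7f_an

open Finset

/-- The equality case of Bohnenblust's inequality, as a statement about real numbers. -/
theorem equality_case {m n : ℕ} (hn : 3 ≤ n) (hm : m ≤ n) (w φ : Fin m → ℝ) (H : Fin m → Fin m → ℝ)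
    (μ : ℝ) (hw : ∀ i, 0 < w i) (hw1 : ∑ i, w i = 1) (hφ : ∀ i, 0 ≤ φ i)
    (hH1 : ∀ i j, H i j ≤ 1) (hH2 : ∀ i, -1 ≤ H i i)
    (hμ : ∀ j, μ * φ j = ∑ i, w i * φ i * H i j)
    (hge : 2 - 2 / (n : ℝ) ≤ μ - ∑ i, w i * H i i) (hS : 0 < ∑ i, w i * φ i) :
    m = n ∧ (∀ i, w i = 1 / n) ∧ μ = 1 - 2 / n ∧ (∀ i, φ i = ∑ k, w k * φ k) ∧
      (∀ i, H i i = -1) ∧ (∀ i j, i ≠ j → H i j = 1) := by
  have hn0 : (0 : ℝ) < n := by positivity
  have hn3 : (3 : ℝ) ≤ n := by exact_mod_cast hn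
  have hmn : (m : ℝ) ≤ n := by exact_mod_cast hm
  set S := ∑ k, w k * φ k with hSdef
  set κ : ℝ := 1 - 2 / n with hκ
  have hκpos : 0 < κ := by
    rw [hκ, sub_pos, div_lt_one hn0]; linarith
  have hκ1 : κ + 2 / n = 1 := by rw [hκ]; ring
  -- slack of the diagonal
  set u : Fin m → ℝ := fun i => w i * (1 + H i i) with hu
  have hu0 : ∀ i, 0 ≤ u i := fun i => mul_nonneg (hw i).le (by linarith [hH2 i])
  set U := ∑ i, u i with hU
  have hUeq : U = 1 + ∑ i, w i * H i i := by
    rw [hU, ← hw1, ← Finset.sum_add_distrib]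
    exact Finset.sum_congr rfl fun i _ => by simp only [hu]; ring
  have hμge : κ + U ≤ μ := by rw [hUeq, hκ]; linarith
  have huU : ∀ i, u i ≤ U := fun i =>
    Finset.single_le_sum (f := u) (fun k _ => hu0 k) (Finset.mem_univ i)
  -- the basic inequality with its slack
  have hbasic : ∀ j, S - φ j * (μ + 2 * w j - u j)
      = ∑ i ∈ univ.erase j, w i * φ i * (1 - H i j) := by
    intro j
    have h1 : ∑ i, w i * φ i * (1 - H i j) = S - μ * φ j := by
      rw [hμ j, hSdef, ← Finset.sum_sub_distrib]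
      exact Finset.sum_congr rfl fun i _ => by ring
    have h2 := Finset.add_sum_erase univ (fun i => w i * φ i * (1 - H i j)) (Finset.mem_univ j)
    simp only [hu]
    linarith
  have hterm : ∀ i j, 0 ≤ w i * φ i * (1 - H i j) := fun i j =>
    mul_nonneg (mul_nonneg (hw i).le (hφ i)) (by linarith [hH1 i j])
  have hle : ∀ j, φ j * (μ + 2 * w j - u j) ≤ S := by
    intro j
    have := hbasic j
    have h0 : 0 ≤ ∑ i ∈ univ.erase j, w i * φ i * (1 - H i j) :=
      Finset.sum_nonneg fun i _ => hterm i j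
    linarith
  have hle' : ∀ j, φ j * (κ + 2 * w j) ≤ S := by
    intro j
    have h1 : κ + 2 * w j ≤ μ + 2 * w j - u j := by linarith [huU j]
    exact (mul_le_mul_of_nonneg_left h1 (hφ j)).trans (hle j)
  -- tangent line trick
  have htan : ∀ j, w j * φ j + S * (2 * κ * (w j - 1 / n) ^ 2 / (κ + 2 * w j))
      ≤ S * (1 / n + κ * (w j - 1 / n)) := by
    intro j
    have hd : 0 < κ + 2 * w j := by linarith [hw j]
    have hid : 1 / n + κ * (w j - 1 / n)
        = w j / (κ + 2 * w j) + 2 * κ * (w j - 1 / n) ^ 2 / (κ + 2 * w j) := by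
      rw [← add_div, eq_div_iff hd.ne']
      have : κ = 1 - 2 * (1 / n) := by rw [hκ]; ring
      rw [this]; ring
    have h1 : w j * φ j ≤ S * (w j / (κ + 2 * w j)) := by
      rw [mul_div_assoc', le_div_iff₀ hd]
      nlinarith [hle' j, hw j]
    rw [hid]; linarith
  have hsum := Finset.sum_le_sum fun j (_ : j ∈ (univ : Finset (Fin m))) => htan j
  have hR : ∑ j : Fin m, S * (1 / n + κ * (w j - 1 / n)) = S * (m / n + κ * (1 - m / n)) := by
    rw [← Finset.mul_sum, Finset.sum_add_distrib, ← Finset.mul_sum, Finset.sum_sub_distrib, hw1]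
    simp only [Finset.sum_const, Finset.card_univ, Fintype.card_fin, nsmul_eq_mul]
    ring
  rw [Finset.sum_add_distrib, hR, ← hSdef, ← Finset.mul_sum] at hsum
  have hq0 : ∀ j, 0 ≤ 2 * κ * (w j - 1 / n) ^ 2 / (κ + 2 * w j) := fun j =>
    div_nonneg (by positivity) (by linarith [hw j])
  have hQ0 : 0 ≤ ∑ j, 2 * κ * (w j - 1 / n) ^ 2 / (κ + 2 * w j) :=
    Finset.sum_nonneg fun j _ => hq0 j
  have hsum' : 1 + ∑ j, 2 * κ * (w j - 1 / n) ^ 2 / (κ + 2 * w j)
      ≤ m / n + κ * (1 - m / n) := by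
    have : S * (1 + ∑ j, 2 * κ * (w j - 1 / n) ^ 2 / (κ + 2 * w j))
        ≤ S * (m / n + κ * (1 - m / n)) := by linarith
    exact le_of_mul_le_mul_left this hS
  have hmn1 : (m : ℝ) / n ≤ 1 := by rw [div_le_one hn0]; exact hmn
  have h2n : 0 < 2 / (n : ℝ) := by positivity
  have hge1 : (1 : ℝ) ≤ m / n := by
    by_contra hlt
    push Not at hlt
    have : (1 - (m : ℝ) / n) * (2 / (n : ℝ)) > 0 := mul_pos (by linarith) h2n
    have h3 : (1 - (m : ℝ) / n) * (2 / (n : ℝ)) = (1 - (m : ℝ) / n) * (1 - κ) := by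
      rw [← hκ1]; ring
    nlinarith
  have hmeq : (m : ℝ) / n = 1 := le_antisymm hmn1 hge1
  have hmn' : m = n := by
    rw [div_eq_one_iff_eq hn0.ne'] at hmeq
    exact_mod_cast hmeq
  have hQ : ∑ j, 2 * κ * (w j - 1 / n) ^ 2 / (κ + 2 * w j) = 0 := by
    rw [hmeq] at hsum'
    linarith
  have hwj : ∀ j, w j = 1 / n := by
    intro j
    have h1 := (Finset.sum_eq_zero_iff_of_nonneg (fun j _ => hq0 j)).1 hQ j (Finset.mem_univ j)
    have hd : 0 < κ + 2 * w j := by linarith [hw j]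
    rw [div_eq_zero_iff] at h1
    rcases h1 with h1 | h1
    · have : (w j - 1 / n) ^ 2 = 0 := by
        rcases mul_eq_zero.1 h1 with h | h
        · linarith
        · exact h
      have := pow_eq_zero_iff (two_ne_zero) |>.1 this
      linarith
    · linarith
  have hφle : ∀ j, φ j ≤ S := by
    intro j
    have := hle' j
    rw [hwj j, show κ + 2 * (1 / (n : ℝ)) = 1 by rw [← hκ1]; ring] at this
    linarith
  have hφeq : ∀ j, φ j = S := by
    have h0 : ∑ j, w j * (S - φ j) = 0 := by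
      have : ∑ j, w j * (S - φ j) = (∑ j, w j) * S - ∑ j, w j * φ j := by
        rw [Finset.sum_mul, ← Finset.sum_sub_distrib]
        exact Finset.sum_congr rfl fun i _ => by ring
      rw [this, hw1]; ring
    intro j
    have h1 := (Finset.sum_eq_zero_iff_of_nonneg
      (fun j _ => mul_nonneg (hw j).le (sub_nonneg.2 (hφle j)))).1 h0 j (Finset.mem_univ j)
    rcases mul_eq_zero.1 h1 with h | h
    · linarith [hw j]
    · linarith
  have hμle : ∀ j, μ + 2 / n - u j ≤ 1 := by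
    intro j
    have := hle j
    rw [hφeq j, hwj j] at this
    have h2 : S * (μ + 2 * (1 / n) - u j) ≤ S * 1 := by linarith
    have h3 := le_of_mul_le_mul_left h2 hS
    have : 2 * (1 / (n : ℝ)) = 2 / n := by ring
    linarith
  have hUu : ∀ j, U ≤ u j := fun j => by linarith [hμle j]
  have hU0 : U = 0 := by
    have h1 : ∑ _j : Fin m, U ≤ ∑ j, u j := Finset.sum_le_sum fun j _ => hUu j
    simp only [Finset.sum_const, Finset.card_univ, Fintype.card_fin, nsmul_eq_mul] at h1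
    have h2 : 0 ≤ U := Finset.sum_nonneg fun j _ => hu0 j
    have h3 : (3 : ℝ) ≤ m := by rw [hmn']; exact hn3
    rw [← hU] at h1
    nlinarith
  have hu00 : ∀ j, u j = 0 := fun j => le_antisymm (hU0 ▸ huU j) (hu0 j)
  have hm0 : 0 < m := by omega
  have hμeq : μ = κ := by
    have := hμle ⟨0, hm0⟩
    rw [hu00] at this
    linarith
  refine ⟨hmn', hwj, hμeq, hφeq, ?_, ?_⟩
  · intro i
    have := hu00 i
    simp only [hu] at this
    rcases mul_eq_zero.1 this with h | h
    · linarith [hw i]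
    · linarith
  · intro i j hij
    have h1 := hbasic j
    rw [hφeq j, hwj j, hu00 j, hμeq, show κ + 2 * (1 / (n : ℝ)) - 0 = 1 by rw [← hκ1]; ring] at h1
    have h2 : ∑ i ∈ univ.erase j, w i * φ i * (1 - H i j) = 0 := by linarith
    have h3 := (Finset.sum_eq_zero_iff_of_nonneg (fun i _ => hterm i j)).1 h2 i
      (Finset.mem_erase.2 ⟨hij, Finset.mem_univ i⟩)
    rcases mul_eq_zero.1 h3 with h | h
    · rw [hφeq i] at h
      have := mul_pos (hw i) hS
      linarith
    · linarith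

/-- The separation inequality for two compatible configurations, in terms of slack matrices. -/
theorem slack_sep {n : ℕ} (hn : 3 ≤ n) (s t : Fin n → Fin n → ℝ)
    (hs0 : ∀ i j, 0 ≤ s i j) (hs1 : ∀ i j, s i j ≤ 1) (ht0 : ∀ i j, 0 ≤ t i j)
    (ht1 : ∀ i j, t i j ≤ 1)
    (hst : ∀ i j, ∑ k, s i k * t k j
      = (if i = j then 1 else 0) + (∑ k, s i k - 1) * (∑ k, t k j - 1) / (n - 2))
    (hts : ∀ i j, ∑ k, t i k * s k j
      = (if i = j then 1 else 0) + (∑ k, t i k - 1) * (∑ k, s k j - 1) / (n - 2))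
    (ha : ∀ i, ∑ k, s i k - 1 < (n - 2) / n) (ha' : ∀ i, ∑ k, t i k - 1 < (n - 2) / n) :
    ∀ j, ∑ k, t k j = 1 := by
  have hn0 : (0 : ℝ) < n := by positivity
  have hn3 : (3 : ℝ) ≤ n := by exact_mod_cast hn
  have hn2 : (0 : ℝ) < n - 2 := by linarith
  have hdiv : ((n : ℝ) - 2) / n < n - 2 := by
    rw [div_lt_iff₀ hn0]; nlinarith
  -- a general pair of steps, used twice
  have step1 : ∀ (s t : Fin n → Fin n → ℝ), (∀ i j, s i j ≤ 1) → (∀ i j, 0 ≤ t i j) →
      (∀ i j, ∑ k, s i k * t k j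
        = (if i = j then 1 else 0) + (∑ k, s i k - 1) * (∑ k, t k j - 1) / (n - 2)) →
      (∀ i, ∑ k, s i k - 1 < (n - 2) / n) → ∀ i, 0 ≤ ∑ k, t k i - 1 := by
    intro s t hs1 ht0 hst ha i
    have h1 : ∑ k, s i k * t k i ≤ ∑ k, t k i :=
      Finset.sum_le_sum fun k _ => by nlinarith [hs1 i k, ht0 k i]
    rw [hst i i, if_pos rfl] at h1
    have h2 : (∑ k, s i k - 1) * (∑ k, t k i - 1) / (n - 2) ≤ ∑ k, t k i - 1 := by linarith
    rw [div_le_iff₀ hn2] at h2
    by_contra hneg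
    push Not at hneg
    nlinarith [ha i]
  have tot : ∀ (t : Fin n → Fin n → ℝ), (∀ i, ∑ k, t i k - 1 < (n - 2) / n) →
      ∑ j, (∑ k, t k j - 1) < n - 2 := by
    intro t ha'
    have h1 : ∑ j, (∑ k, t k j - 1) = ∑ i, (∑ k, t i k - 1) := by
      rw [Finset.sum_sub_distrib, Finset.sum_sub_distrib, Finset.sum_comm]
    rw [h1]
    have hne : (univ : Finset (Fin n)).Nonempty := ⟨⟨0, by omega⟩, Finset.mem_univ _⟩
    have h2 := Finset.sum_lt_sum_of_nonempty hne (fun i _ => ha' i)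
    simp only [Finset.sum_const, Finset.card_univ, Fintype.card_fin, nsmul_eq_mul] at h2
    have h3 : (n : ℝ) * ((n - 2) / n) = n - 2 := by field_simp
    linarith
  have step2 : ∀ (s t : Fin n → Fin n → ℝ), (∀ i j, 0 ≤ s i j) → (∀ i j, t i j ≤ 1) →
      (∀ i j, ∑ k, s i k * t k j
        = (if i = j then 1 else 0) + (∑ k, s i k - 1) * (∑ k, t k j - 1) / (n - 2)) →
      (∀ i, 0 ≤ ∑ k, t k i - 1) → (∑ j, (∑ k, t k j - 1) < n - 2) →
      ∀ i, 0 ≤ ∑ k, s i k - 1 := by
    intro s t hs0 ht1 hst hb hτ i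
    have h1 : ∑ k, s i k * t k i ≤ ∑ k, s i k :=
      Finset.sum_le_sum fun k _ => by nlinarith [hs0 i k, ht1 k i]
    rw [hst i i, if_pos rfl] at h1
    have h2 : (∑ k, s i k - 1) * (∑ k, t k i - 1) / (n - 2) ≤ ∑ k, s i k - 1 := by linarith
    rw [div_le_iff₀ hn2] at h2
    have h3 : ∑ k, t k i - 1 ≤ ∑ j, (∑ k, t k j - 1) :=
      Finset.single_le_sum (f := fun j => ∑ k, t k j - 1) (fun j _ => hb j) (Finset.mem_univ i)
    by_contra hneg
    push Not at hneg
    nlinarith
  have hb := step1 s t hs1 ht0 hst ha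
  have hb' := step1 t s ht1 hs0 hts ha'
  have hτ := tot t ha'
  have hσ := tot s ha
  have ha0' := step2 t s ht0 hs1 hts hb' hσ
  set σ := ∑ j, (∑ k, s k j - 1) with hσdef
  set τ := ∑ j, (∑ k, t k j - 1) with hτdef
  have hσ0 : 0 ≤ σ := Finset.sum_nonneg fun j _ => hb' j
  have hτ0 : 0 ≤ τ := Finset.sum_nonneg fun j _ => hb j
  have hσ' : ∑ i, (∑ k, s i k - 1) = σ := by
    rw [hσdef, Finset.sum_sub_distrib, Finset.sum_sub_distrib, Finset.sum_comm]
  have hτ' : ∑ i, (∑ k, t i k - 1) = τ := by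
    rw [hτdef, Finset.sum_sub_distrib, Finset.sum_sub_distrib, Finset.sum_comm]
  have hL : ∑ i, ∑ j, ∑ k, s i k * t k j = ∑ k, (∑ i, s i k) * (∑ j, t k j) := by
    calc ∑ i, ∑ j, ∑ k, s i k * t k j = ∑ i, ∑ k, ∑ j, s i k * t k j :=
          Finset.sum_congr rfl fun i _ => Finset.sum_comm
      _ = ∑ k, ∑ i, ∑ j, s i k * t k j := Finset.sum_comm
      _ = _ := Finset.sum_congr rfl fun k _ => by rw [Finset.sum_mul_sum]
  have hR : ∑ i, ∑ j, ∑ k, s i k * t k j = n + σ * τ / (n - 2) := by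
    simp_rw [hst, Finset.sum_add_distrib]
    have h1 : ∑ i : Fin n, ∑ j : Fin n, (if i = j then (1 : ℝ) else 0) = n := by simp
    have h2 : ∑ i, ∑ j, (∑ k, s i k - 1) * (∑ k, t k j - 1) / ((n : ℝ) - 2) = σ * τ / (n - 2) := by
      rw [← hσ', hτdef, Finset.sum_mul_sum, Finset.sum_div]
      exact Finset.sum_congr rfl fun i _ => by rw [Finset.sum_div]
    rw [h1, h2]
  have hlow : n + σ + τ ≤ ∑ k, (∑ i, s i k) * (∑ j, t k j) := by
    have h1 : (n : ℝ) + σ + τ = ∑ k, (1 + (∑ i, s i k - 1) + (∑ j, t k j - 1)) := by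
      rw [Finset.sum_add_distrib, Finset.sum_add_distrib, hτ', ← hσdef]
      simp
    rw [h1]
    exact Finset.sum_le_sum fun k _ => by nlinarith [hb' k, ha0' k]
  have hfin : σ * τ / (n - 2) ≤ σ := by
    rw [div_le_iff₀ hn2]; nlinarith
  have hτz : τ = 0 := by linarith
  intro j
  have := (Finset.sum_eq_zero_iff_of_nonneg (fun j _ => hb j)).1 hτz j (Finset.mem_univ j)
  linarith

end Pool.Agent.MP_026d7f_an

end

-- part MP_026d7f_an.Config
section

namespace Pool.Agent.MP_026d7f_an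

open Module Finset

variable {X : Type*} [NormedAddCommGroup X] [NormedSpace ℝ X]

/-- A configuration: `n` points of the unit ball and `n` functionals of the dual unit ball whose
pairing matrix has `-1` on the diagonal and `1` elsewhere. -/
structure IsConfig {n : ℕ} (y : Fin n → X) (h : Fin n → (X →L[ℝ] ℝ)) : Prop where
  ny : ∀ j, ‖y j‖ ≤ 1
  nh : ∀ i, ‖h i‖ ≤ 1
  pair : ∀ i j, h i (y j) = if i = j then -1 else 1

theorem abs_apply_le_one {g : X →L[ℝ] ℝ} {x : X} (hg : ‖g‖ ≤ 1) (hx : ‖x‖ ≤ 1) : |g x| ≤ 1 := by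
  have := g.le_opNorm x
  rw [Real.norm_eq_abs] at this
  nlinarith [norm_nonneg g, norm_nonneg x]

theorem projConst_le (f : X →L[ℝ] ℝ) (Y : Submodule ℝ X) (hY : ∀ x, x ∈ Y ↔ f x = 0) (v : X)
    (hv : f v = 1) {c : ℝ} (hc0 : 0 ≤ c) (hc : ∀ x, ‖x‖ ≤ 1 → ‖x - f x • v‖ ≤ c) :
    projConst Y ≤ c := by
  let Q : X →L[ℝ] X := ContinuousLinearMap.id ℝ X - f.smulRight v
  have hQ : ∀ x, Q x = x - f x • v := fun x => rfl
  have hmem : ∀ x, Q x ∈ Y := by
    intro x
    rw [hY, hQ, map_sub, map_smul, hv]; simp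
  let P : X →L[ℝ] Y := Q.codRestrict Y hmem
  have hP : ∀ y : Y, P (y : X) = y := by
    intro y
    apply Subtype.ext
    change Q y = y
    rw [hQ, (hY y).1 y.2]; simp
  have hnorm : ‖P‖ ≤ c := by
    apply ContinuousLinearMap.opNorm_le_of_unit_norm hc0
    intro x hx
    change ‖Q x‖ ≤ c
    rw [hQ]
    exact hc x hx.le
  refine le_trans (csInf_le ⟨0, ?_⟩ ⟨P, hP, rfl⟩) hnorm
  rintro r ⟨P, -, rfl⟩
  exact norm_nonneg P

theorem exists_config [FiniteDimensional ℝ X] {n : ℕ} (hn : 3 ≤ n) (hX : finrank ℝ X = n)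
    (Y : Submodule ℝ X) (hY : finrank ℝ Y = n - 1) (hl : projConst Y = 2 - 2 / n) :
    ∃ (y : Fin n → X) (h : Fin n → (X →L[ℝ] ℝ)), IsConfig y h ∧
      ∀ x, x ∈ Y ↔ (∑ i, h i) x = 0 := by
  classical
  have hn0 : (0 : ℝ) < n := by positivity
  have hn3 : (3 : ℝ) ≤ n := by exact_mod_cast hn
  have hlam : (1 : ℝ) < 2 - 2 / n := by
    have : 2 / (n : ℝ) < 1 := by rw [div_lt_one hn0]; linarith
    linarith
  have hlt : Y < ⊤ := by
    rw [lt_top_iff_ne_top]
    intro h
    rw [h, finrank_top, hX] at hY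
    omega
  obtain ⟨f₀, hf₀, hle⟩ := Y.exists_le_ker_of_lt_top hlt
  have hker : Y = LinearMap.ker f₀ := by
    apply Submodule.eq_of_le_of_finrank_eq hle
    have := Module.Dual.finrank_ker_add_one_of_ne_zero hf₀
    omega
  let f : X →L[ℝ] ℝ := LinearMap.toContinuousLinearMap f₀
  have hf : f ≠ 0 := by
    intro h
    apply hf₀
    ext x
    exact congrArg (fun g : X →L[ℝ] ℝ => g x) h
  have hYf : ∀ x, x ∈ Y ↔ f x = 0 := by
    intro x; rw [hker]; rfl
  -- the compact set of affine minorants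
  let D : Set ((X →L[ℝ] ℝ) × X) :=
    (Metric.closedBall 0 1 ×ˢ Metric.closedBall 0 1) ∩ {p | 0 ≤ f p.2}
  have hD : IsCompact D := by
    apply IsCompact.inter_right
    · exact (isCompact_closedBall _ _).prod (isCompact_closedBall _ _)
    · exact isClosed_le continuous_const (by fun_prop)
  let κ : (X →L[ℝ] ℝ) × X → (X →L[ℝ] ℝ) := fun p => f p.2 • p.1 - p.1 p.2 • f
  have hκ : Continuous κ := by fun_prop
  have hK : IsCompact (κ '' D) := hD.image hκ
  have hH := isCompact_convexHull_of_isCompact hK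
  -- the ray meets the hull
  have hray : ∃ s₀ : ℝ, 2 - 2 / (n : ℝ) ≤ s₀ ∧ s₀ • f ∈ convexHull ℝ (κ '' D) := by
    by_contra hcon
    push Not at hcon
    let R : Set (X →L[ℝ] ℝ) := (fun s : ℝ => s • f) '' Set.Ici (2 - 2 / (n : ℝ))
    have hRc : Convex ℝ R := by
      have := (convex_Ici (𝕜 := ℝ) (2 - 2 / (n : ℝ))).linear_image
        (LinearMap.toSpanSingleton ℝ (X →L[ℝ] ℝ) f)
      exact this
    have hRcl : IsClosed R := (isClosedEmbedding_smul_left hf).isClosedMap _ isClosed_Ici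
    have hdisj : Disjoint (convexHull ℝ (κ '' D)) R := by
      rw [Set.disjoint_right]
      rintro _ ⟨s, hs, rfl⟩
      exact hcon s hs
    obtain ⟨Ψ, u, u', hu, huu, hu'⟩ :=
      geometric_hahn_banach_compact_closed (convex_convexHull ℝ _) hH hRc hRcl hdisj
    let Ψ' : Dual ℝ (Dual ℝ X) :=
      (Ψ : (X →L[ℝ] ℝ) →ₗ[ℝ] ℝ) ∘ₗ (LinearMap.toContinuousLinearMap : Dual ℝ X ≃ₗ[ℝ] _).toLinearMap
    let v : X := (evalEquiv ℝ X).symm Ψ'
    have hv : ∀ g : X →L[ℝ] ℝ, Ψ g = g v := by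
      intro g
      have := Module.apply_evalEquiv_symm_apply ℝ X (g : X →ₗ[ℝ] ℝ) Ψ'
      exact this.symm
    have hu0 : 0 < u := by
      have h0 : κ (0, 0) ∈ κ '' D := ⟨(0, 0), ⟨⟨by simp, by simp⟩, by simp⟩, rfl⟩
      have := hu _ (subset_convexHull ℝ _ h0)
      simpa [κ] using this
    have h1 := hu' ((2 - 2 / (n : ℝ)) • f) ⟨_, Set.mem_Ici.2 le_rfl, rfl⟩
    rw [hv] at h1
    simp only [smul_apply, smul_eq_mul] at h1
    have hfv : 0 < f v := by
      by_contra hneg
      push Not at hneg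
      nlinarith
    have hbound : ∀ x, ‖x‖ ≤ 1 → 0 ≤ f x → ‖x - f x • ((f v)⁻¹ • v)‖ ≤ u / f v := by
      intro x hx hfx
      obtain ⟨g, hg, hgx⟩ := exists_dual_vector'' ℝ (x - f x • ((f v)⁻¹ • v))
      have hmem : κ (-g, x) ∈ κ '' D :=
        ⟨(-g, x), ⟨⟨by simpa using hg, by simpa using hx⟩, hfx⟩, rfl⟩
      have h2 := hu _ (subset_convexHull ℝ _ hmem)
      rw [hv] at h2
      simp only [κ, sub_apply, smul_apply,
        neg_apply, smul_eq_mul] at h2
      simp only [map_sub, map_smul, smul_eq_mul, RCLike.ofReal_real_eq_id, id] at hgx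
      rw [← hgx, le_div_iff₀ hfv]
      have : (g x - f x * ((f v)⁻¹ * g v)) * f v = g x * f v - f x * g v := by
        field_simp
      rw [this]; linarith
    have hle2 : projConst Y ≤ u / f v := by
      apply projConst_le f Y hYf ((f v)⁻¹ • v)
      · rw [map_smul, smul_eq_mul, inv_mul_cancel₀ hfv.ne']
      · positivity
      · intro x hx
        rcases le_total 0 (f x) with h | h
        · exact hbound x hx h
        · have := hbound (-x) (by simpa using hx) (by simpa using h)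
          have h5 : x - f x • ((f v)⁻¹ • v) = -(-x - f (-x) • ((f v)⁻¹ • v)) := by
            rw [map_neg, neg_smul]; abel
          rw [h5, norm_neg]
          exact this
    rw [hl, le_div_iff₀ hfv] at hle2
    linarith
  obtain ⟨s₀, hs₀, hmem⟩ := hray
  obtain ⟨m, z, w, s, hm, hz, hw, hw1, hsum, hs⟩ := exists_small_repr hK hf hmem
  have hdual : finrank ℝ (X →L[ℝ] ℝ) = n := by
    rw [← (LinearMap.toContinuousLinearMap : (X →ₗ[ℝ] ℝ) ≃ₗ[ℝ] _).finrank_eq]
    exact (Subspace.dual_finrank_eq (K := ℝ) (V := X)).trans hX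
  rw [hdual] at hm
  choose p hp hpz using hz
  have hy : ∀ i, ‖(p i).2‖ ≤ 1 := fun i => by simpa using (hp i).1.2
  have hh : ∀ i, ‖(p i).1‖ ≤ 1 := fun i => by simpa using (hp i).1.1
  have hφ : ∀ i, 0 ≤ f (p i).2 := fun i => (hp i).2
  have hkey : ∀ x, (s + ∑ i, w i * (p i).1 (p i).2) * f x = ∑ i, w i * f (p i).2 * (p i).1 x := by
    intro x
    have := congrArg (fun g : X →L[ℝ] ℝ => g x) hsum
    simp only [← hpz, κ, _root_.sum_apply, sub_apply,
      smul_apply, smul_eq_mul] at this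
    rw [add_mul, ← this, Finset.sum_mul, ← Finset.sum_add_distrib]
    exact Finset.sum_congr rfl fun i _ => by ring
  have hd : -1 ≤ ∑ i, w i * (p i).1 (p i).2 := by
    have : ∑ i, w i * (-1) ≤ ∑ i, w i * (p i).1 (p i).2 :=
      Finset.sum_le_sum fun i _ => mul_le_mul_of_nonneg_left
        (abs_le.1 (abs_apply_le_one (hh i) (hy i))).1 (hw i).le
    rw [← Finset.sum_mul, hw1] at this
    linarith
  have hS : 0 < ∑ i, w i * f (p i).2 := by
    have h0 : 0 ≤ ∑ i, w i * f (p i).2 :=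
      Finset.sum_nonneg fun i _ => mul_nonneg (hw i).le (hφ i)
    rcases h0.lt_or_eq with h | h
    · exact h
    · exfalso
      have hz0 := (Finset.sum_eq_zero_iff_of_nonneg
        (fun i _ => mul_nonneg (hw i).le (hφ i))).1 h.symm
      apply hf
      ext x
      have h1 := hkey x
      have h7 : ∑ i, w i * f (p i).2 * (p i).1 x = 0 :=
        Finset.sum_eq_zero (fun i hi => by rw [hz0 i hi, zero_mul])
      rw [h7] at h1
      rcases mul_eq_zero.1 h1 with h2 | h2
      · linarith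
      · simpa using h2
  obtain ⟨hmn, hwj, hμ, hφeq, hdiag, hoff⟩ := equality_case hn hm w (fun i => f (p i).2)
    (fun i j => (p i).1 (p j).2) (s + ∑ i, w i * (p i).1 (p i).2) hw hw1 hφ
    (fun i j => (abs_le.1 (abs_apply_le_one (hh i) (hy j))).2)
    (fun i => (abs_le.1 (abs_apply_le_one (hh i) (hy i))).1)
    (fun j => hkey _) (by linarith) hS
  subst hmn
  refine ⟨fun j => (p j).2, fun i => (p i).1, ⟨hy, hh, ?_⟩, ?_⟩
  · intro i j
    split_ifs with hij
    · subst hij; exact hdiag i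
    · exact hoff i j hij
  · intro x
    rw [hYf]
    have h1 := hkey x
    set S := ∑ i, w i * f (p i).2 with hSdef
    have h2 : ∑ i, w i * f (p i).2 * (p i).1 x = (1 / m * S) * (∑ i, (p i).1) x := by
      rw [_root_.sum_apply, Finset.mul_sum]
      refine Finset.sum_congr rfl fun i _ => ?_
      have h8 : f (p i).2 = S := hφeq i
      rw [hwj i, h8]
    rw [h2, hμ] at h1
    have h3 : (0 : ℝ) < 1 - 2 / m := by linarith
    have h4 : (0 : ℝ) < 1 / m * S := by positivity
    constructor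
    · intro h0
      rw [h0, mul_zero] at h1
      exact (mul_eq_zero.1 h1.symm).resolve_left h4.ne'
    · intro h0
      rw [h0, mul_zero] at h1
      exact (mul_eq_zero.1 h1).resolve_left h3.ne'

end Pool.Agent.MP_026d7f_an

end
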