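import Mathlib
import Pool.Agent.MP_026d7f_an.Mg.Config

namespace Pool.Agent.MP_026d7f_an

open Module Finset MeasureTheory Metric
open scoped ENNReal

variable {X : Type*} [NormedAddCommGroup X] [NormedSpace ℝ X]

theorem IsConfig.neg {n : ℕ} {y : Fin n → X} {h : Fin n → (X →L[ℝ] ℝ)} (H : IsConfig y h) :
    IsConfig (fun j => -y j) (fun i => -h i) :=
  ⟨fun j => by simpa using H.ny j, fun i => by simpa using H.nh i,
    fun i j => by simpa using H.pair i j⟩

theorem IsConfig.sum_col {n : ℕ} {y : Fin n → X} {h : Fin n → (X →L[ℝ] ℝ)} (H : IsConfig y h)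
    (j : Fin n) : ∑ i, h i (y j) = n - 2 := by
  have : ∀ i, h i (y j) = 1 - (if i = j then 2 else 0) := by
    intro i; rw [H.pair]; split_ifs <;> norm_num
  simp [this, Finset.sum_sub_distrib]

theorem IsConfig.sum_row {n : ℕ} {y : Fin n → X} {h : Fin n → (X →L[ℝ] ℝ)} (H : IsConfig y h)
    (i : Fin n) : ∑ j, h i (y j) = n - 2 := by
  have : ∀ j, h i (y j) = 1 - (if i = j then 2 else 0) := by
    intro j; rw [H.pair]; split_ifs <;> norm_num
  simp [this, Finset.sum_sub_distrib]

/-- The reproducing formula in the basis given by a configuration. -/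
theorem IsConfig.repr [FiniteDimensional ℝ X] {n : ℕ} (hn : 3 ≤ n) (hX : finrank ℝ X = n)
    {y : Fin n → X} {h : Fin n → (X →L[ℝ] ℝ)} (H : IsConfig y h) (x : X) :
    x = ∑ k, (((∑ l, h l x) / (n - 2) - h k x) / 2) • y k := by
  have hn3 : (3 : ℝ) ≤ n := by exact_mod_cast hn
  have hn2 : (n : ℝ) - 2 ≠ 0 := by linarith
  let e : Fin n → (X →L[ℝ] ℝ) := fun k => (1 / 2 : ℝ) • (((n : ℝ) - 2)⁻¹ • ∑ l, h l - h k)
  have he : ∀ k x, e k x = ((∑ l, h l x) / (n - 2) - h k x) / 2 := by
    intro k x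
    simp only [e, smul_apply, sub_apply, _root_.sum_apply, smul_eq_mul]
    ring
  have hey : ∀ k j, e k (y j) = if k = j then 1 else 0 := by
    intro k j
    rw [he, H.sum_col, H.pair, div_self hn2]
    split_ifs <;> norm_num
  have hcoef : ∀ (c : Fin n → ℝ) (k : Fin n), e k (∑ j, c j • y j) = c k := by
    intro c k
    simp [map_sum, hey]
  have hli : LinearIndependent ℝ y := by
    rw [Fintype.linearIndependent_iff]
    intro c hc k
    rw [← hcoef c k, hc, map_zero]
  have : Nonempty (Fin n) := ⟨⟨0, by omega⟩⟩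
  let b := basisOfLinearIndependentOfCardEqFinrank hli (by simp [hX])
  have hb : ∀ j, b j = y j := fun j => by simp [b]
  have h1 : x = ∑ j, b.repr x j • y j := by
    simp_rw [← hb]; exact (b.sum_repr x).symm
  conv_lhs => rw [h1]
  refine Finset.sum_congr rfl fun k _ => ?_
  rw [← he, ← hcoef (b.repr x) k, ← h1]

theorem slack_identity [FiniteDimensional ℝ X] {n : ℕ} (hn : 3 ≤ n) (hX : finrank ℝ X = n)
    {y y' : Fin n → X} {h h' : Fin n → (X →L[ℝ] ℝ)} (H : IsConfig y h) (H' : IsConfig y' h')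
    (i j : Fin n) :
    ∑ k, (1 - h i (y' k)) / 2 * ((1 - h' k (y j)) / 2)
      = (if i = j then 1 else 0)
        + (∑ k, (1 - h i (y' k)) / 2 - 1) * (∑ k, (1 - h' k (y j)) / 2 - 1) / (n - 2) := by
  have hn3 : (3 : ℝ) ≤ n := by exact_mod_cast hn
  have hn2 : (n : ℝ) - 2 ≠ 0 := by linarith
  have h1 := congrArg (h i) (H'.repr hn hX (y j))
  rw [H.pair, map_sum] at h1
  simp only [map_smul, smul_eq_mul] at h1
  set A := ∑ k, h i (y' k) with hA
  set B := ∑ k, h' k (y j) with hB
  set C := ∑ k, h i (y' k) * h' k (y j) with hC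
  have e1 : ∑ k, (B / (n - 2) - h' k (y j)) / 2 * h i (y' k) = (A * B / (n - 2) - C) / 2 := by
    have : ∀ k, (B / (n - 2) - h' k (y j)) / 2 * h i (y' k)
        = (B / (n - 2) / 2) * h i (y' k) - (1 / 2) * (h i (y' k) * h' k (y j)) := fun k => by ring
    simp_rw [this]
    rw [Finset.sum_sub_distrib, ← Finset.mul_sum, ← Finset.mul_sum, ← hA, ← hC]
    ring
  have e2 : ∑ k, (1 - h i (y' k)) / 2 * ((1 - h' k (y j)) / 2) = (n - A - B + C) / 4 := by
    have : (n : ℝ) = ∑ _k : Fin n, (1 : ℝ) := by simp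
    rw [hC, hA, hB, this, ← Finset.sum_sub_distrib, ← Finset.sum_sub_distrib,
      ← Finset.sum_add_distrib, Finset.sum_div]
    exact Finset.sum_congr rfl fun k _ => by ring
  have e3 : ∑ k, (1 - h i (y' k)) / 2 = (n - A) / 2 := by
    rw [← Finset.sum_div, Finset.sum_sub_distrib]; simp [hA]
  have e4 : ∑ k, (1 - h' k (y j)) / 2 = (n - B) / 2 := by
    rw [← Finset.sum_div, Finset.sum_sub_distrib]; simp [hB]
  rw [e1] at h1
  rw [e2, e3, e4]
  have e5 : ((n - A) / 2 - 1) * ((n - B) / 2 - 1) / ((n : ℝ) - 2)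
      = ((n - 2) - A - B + A * B / (n - 2)) / 4 := by
    field_simp; ring
  rw [e5]
  split_ifs at h1 ⊢ <;> linarith

/-- Two configurations in one space whose centroids are close have the same hyperplane. -/
theorem sum_eq_of_close [FiniteDimensional ℝ X] {n : ℕ} (hn : 3 ≤ n) (hX : finrank ℝ X = n)
    {y y' : Fin n → X} {h h' : Fin n → (X →L[ℝ] ℝ)} (H : IsConfig y h) (H' : IsConfig y' h')
    (hc : ‖∑ j, y j - ∑ j, y' j‖ < 2 * (n - 2) / n) : ∑ i, h i = ∑ i, h' i := by
  have hn3 : (3 : ℝ) ≤ n := by exact_mod_cast hn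
  have hrow : ∀ {y y' : Fin n → X} {h : Fin n → (X →L[ℝ] ℝ)}, IsConfig y h →
      ‖∑ j, y j - ∑ j, y' j‖ < 2 * (n - 2) / n →
      ∀ i, ∑ k, (1 - h i (y' k)) / 2 - 1 < (n - 2) / n := by
    intro y y' h H hc i
    have h1 : h i (∑ j, y j - ∑ j, y' j) ≤ ‖∑ j, y j - ∑ j, y' j‖ := by
      have := (h i).le_opNorm (∑ j, y j - ∑ j, y' j)
      rw [Real.norm_eq_abs] at this
      nlinarith [le_abs_self (h i (∑ j, y j - ∑ j, y' j)), H.nh i,
        norm_nonneg (∑ j, y j - ∑ j, y' j)]
    rw [map_sub, map_sum, map_sum, H.sum_row] at h1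
    have e3 : ∑ k, (1 - h i (y' k)) / 2 = (n - ∑ k, h i (y' k)) / 2 := by
      rw [← Finset.sum_div, Finset.sum_sub_distrib]; simp
    have e4 : 2 * ((n : ℝ) - 2) / n = 2 * ((n - 2) / n) := by ring
    rw [e3]; linarith
  have key := slack_sep hn (fun i j => (1 - h i (y' j)) / 2) (fun i j => (1 - h' i (y j)) / 2)
    (fun i j => by linarith [(abs_le.1 (abs_apply_le_one (H.nh i) (H'.ny j))).2])
    (fun i j => by linarith [(abs_le.1 (abs_apply_le_one (H.nh i) (H'.ny j))).1])
    (fun i j => by linarith [(abs_le.1 (abs_apply_le_one (H'.nh i) (H.ny j))).2])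
    (fun i j => by linarith [(abs_le.1 (abs_apply_le_one (H'.nh i) (H.ny j))).1])
    (slack_identity hn hX H H') (slack_identity hn hX H' H) (hrow H hc)
    (hrow H' (by rwa [norm_sub_rev]))
  have hy : ∀ j, (∑ i, h i) (y j) = (∑ i, h' i) (y j) := by
    intro j
    have h1 := key j
    rw [← Finset.sum_div, Finset.sum_sub_distrib] at h1
    simp only [Finset.sum_const, Finset.card_univ, Fintype.card_fin, nsmul_eq_mul, mul_one] at h1
    rw [_root_.sum_apply, _root_.sum_apply, H.sum_col]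
    linarith
  ext x
  rw [H.repr hn hX x, map_sum, map_sum]
  exact Finset.sum_congr rfl fun k _ => by rw [map_smul, map_smul, hy]

/-- The volume bound for separated points in a ball. -/
theorem card_le_of_sep [FiniteDimensional ℝ X] (s : Finset X) {R δ : ℝ} (hR : 0 ≤ R) (hδ : 0 < δ)
    (hs : ∀ c ∈ s, ‖c‖ ≤ R) (h : ∀ c ∈ s, ∀ d ∈ s, c ≠ d → δ ≤ ‖c - d‖) :
    (s.card : ℝ) ≤ ((R + δ / 2) / (δ / 2)) ^ finrank ℝ X := by
  borelize X
  let μ : Measure X := Measure.addHaar
  have ρpos : 0 < R + δ / 2 := by linarith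
  have δpos : 0 < δ / 2 := by linarith
  set A := ⋃ c ∈ s, ball (c : X) (δ / 2) with hA
  have D : Set.Pairwise (s : Set X) (Function.onFun Disjoint fun c => ball (c : X) (δ / 2)) := by
    rintro c hc d hd hcd
    apply ball_disjoint_ball
    rw [dist_eq_norm]
    linarith [h c hc d hd hcd]
  have A_subset : A ⊆ ball (0 : X) (R + δ / 2) := by
    refine Set.iUnion₂_subset fun x hx => ?_
    apply ball_subset_ball'
    rw [dist_zero_right]
    linarith [hs x hx]
  have I : (s.card : ℝ≥0∞) * ENNReal.ofReal ((δ / 2) ^ finrank ℝ X) * μ (ball 0 1) ≤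
      ENNReal.ofReal ((R + δ / 2) ^ finrank ℝ X) * μ (ball 0 1) :=
    calc
      (s.card : ℝ≥0∞) * ENNReal.ofReal ((δ / 2) ^ finrank ℝ X) * μ (ball 0 1) = μ A := by
        rw [hA, measure_biUnion_finset D fun c _ => measurableSet_ball]
        simp only [μ.addHaar_ball_of_pos _ δpos]
        simp only [Finset.sum_const, nsmul_eq_mul, mul_assoc]
      _ ≤ μ (ball (0 : X) (R + δ / 2)) := measure_mono A_subset
      _ = ENNReal.ofReal ((R + δ / 2) ^ finrank ℝ X) * μ (ball 0 1) := by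
        simp only [μ.addHaar_ball_of_pos _ ρpos]
  have J : (s.card : ℝ≥0∞) * ENNReal.ofReal ((δ / 2) ^ finrank ℝ X)
      ≤ ENNReal.ofReal ((R + δ / 2) ^ finrank ℝ X) :=
    (ENNReal.mul_le_mul_iff_left (measure_ball_pos _ _ zero_lt_one).ne' measure_ball_lt_top.ne).1 I
  have K := ENNReal.toReal_le_of_le_ofReal (pow_nonneg ρpos.le _) J
  rw [ENNReal.toReal_mul, ENNReal.toReal_natCast,
    ENNReal.toReal_ofReal (pow_nonneg δpos.le _)] at K
  rw [div_pow, le_div_iff₀ (pow_pos δpos _)]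
  exact K

theorem finset_bound [FiniteDimensional ℝ X] {n : ℕ} (hn : 3 ≤ n) (hX : finrank ℝ X = n)
    (T : Finset (Submodule ℝ X))
    (hT : ∀ Y ∈ T, finrank ℝ Y = n - 1 ∧ projConst Y = 2 - 2 / n) :
    (T.card : ℝ) ≤ (1 / 2) * (((n + 2) * (n - 1)) / (n - 2)) ^ n := by
  classical
  have hn3 : (3 : ℝ) ≤ n := by exact_mod_cast hn
  have hn0 : (0 : ℝ) < n := by linarith
  have hn2 : (0 : ℝ) < n - 2 := by linarith
  choose y h H hY using fun Y : T => exists_config hn hX Y.1 (hT Y.1 Y.2).1 (hT Y.1 Y.2).2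
  let y' : T × Bool → Fin n → X := fun q => if q.2 then y q.1 else fun j => -y q.1 j
  let h' : T × Bool → Fin n → (X →L[ℝ] ℝ) := fun q => if q.2 then h q.1 else fun j => -h q.1 j
  have H' : ∀ q, IsConfig (y' q) (h' q) := by
    rintro ⟨Y, _ | _⟩
    · exact (H Y).neg
    · exact H Y
  have hY' : ∀ q x, x ∈ q.1.1 ↔ (∑ i, h' q i) x = 0 := by
    rintro ⟨Y, _ | _⟩ x
    · rw [hY]; simp [h']
    · exact hY Y x
  have hsep : ∀ q q', q ≠ q' → 2 * ((n : ℝ) - 2) / n ≤ ‖∑ j, y' q j - ∑ j, y' q' j‖ := by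
    intro q q' hne
    by_contra hlt
    push Not at hlt
    have heq := sum_eq_of_close hn hX (H' q) (H' q') hlt
    have h1 : q.1 = q'.1 := by
      apply Subtype.ext
      ext x
      rw [hY', hY', heq]
    obtain ⟨Y, b⟩ := q
    obtain ⟨Y', b'⟩ := q'
    simp only at h1
    subst h1
    have h2 := (H Y).sum_col ⟨0, by omega⟩
    have h3 := congrArg (fun g : X →L[ℝ] ℝ => g (y Y ⟨0, by omega⟩)) heq
    rcases b with _ | _ <;> rcases b' with _ | _
    · exact hne rfl
    · simp only [h', _root_.sum_apply, Bool.false_eq_true, if_false, if_true, neg_apply,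
        Finset.sum_neg_distrib, h2] at h3
      linarith
    · simp only [h', _root_.sum_apply, Bool.false_eq_true, if_false, if_true, neg_apply,
        Finset.sum_neg_distrib, h2] at h3
      linarith
    · exact hne rfl
  have hδ : 0 < 2 * ((n : ℝ) - 2) / n := by positivity
  have hinj : Function.Injective (fun q => ∑ j, y' q j) := by
    intro q q' hqq
    by_contra hne
    have := hsep q q' hne
    simp only at hqq
    rw [hqq, sub_self, norm_zero] at this
    linarith
  have hb := card_le_of_sep (Finset.univ.image (fun q => ∑ j, y' q j)) hn0.le hδ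
    (by
      intro c hc
      obtain ⟨q, -, rfl⟩ := Finset.mem_image.1 hc
      refine (norm_sum_le _ _).trans ?_
      have := Finset.sum_le_sum fun j (_ : j ∈ (univ : Finset (Fin n))) => (H' q).ny j
      simpa using this)
    (by
      intro c hc d hd hcd
      obtain ⟨q, -, rfl⟩ := Finset.mem_image.1 hc
      obtain ⟨q', -, rfl⟩ := Finset.mem_image.1 hd
      exact hsep q q' fun h => hcd (by rw [h]))
  rw [Finset.card_image_of_injective _ hinj, hX] at hb
  have e1 : ((n : ℝ) + 2 * (n - 2) / n / 2) / (2 * (n - 2) / n / 2)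
      = ((n + 2) * (n - 1)) / (n - 2) := by
    field_simp; ring
  rw [e1] at hb
  simp only [Finset.card_univ, Fintype.card_prod, Fintype.card_coe, Fintype.card_bool,
    Nat.cast_mul, Nat.cast_ofNat] at hb
  linarith

end Pool.Agent.MP_026d7f_an
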