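import Mathlib
import Pool.Agent.MP_026d7f_an.H77.Gauss
import Pool.Agent.MP_026d7f_an.Mg.Config

-- part MP_026d7f_an.H77.Solve
section

namespace Pool.Agent.MP_026d7f_an.H77

open MeasureTheory ProbabilityTheory Real Set Module
open scoped RealInnerProductSpace

lemma isClosed_exists {X Y : Type*} [TopologicalSpace X] [TopologicalSpace Y] {K : Set Y}
    (hK : IsCompact K) {P : X → Y → Prop} (hP : IsClosed {z : X × Y | P z.1 z.2}) :
    IsClosed {x | ∃ y ∈ K, P x y} := by
  have : CompactSpace K := isCompact_iff_compactSpace.1 hK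
  have h1 : IsClosed {z : X × K | P z.1 z.2} :=
    hP.preimage (f := fun z : X × K => (z.1, (z.2 : Y))) (by fun_prop)
  have h2 := isClosedMap_fst_of_compactSpace _ h1
  convert h2 using 1
  ext x
  simp

lemma prod_le {X Y : Type*} [MeasurableSpace X] [MeasurableSpace Y] (μ : Measure X)
    (ν : Measure Y) [IsProbabilityMeasure μ] [IsProbabilityMeasure ν] {S : Set (X × Y)}
    (hS : MeasurableSet S) {c : ℝ} (hc : 0 ≤ c) (h : ∀ x, ν.real (Prod.mk x ⁻¹' S) ≤ c) :
    (μ.prod ν).real S ≤ c := by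
  rw [measureReal_def, Measure.prod_apply hS]
  apply ENNReal.toReal_le_of_le_ofReal hc
  calc ∫⁻ x, ν (Prod.mk x ⁻¹' S) ∂μ ≤ ∫⁻ _, ENNReal.ofReal c ∂μ := by
        apply lintegral_mono
        intro x
        exact (ENNReal.le_ofReal_iff_toReal_le (measure_ne_top _ _) hc).2 (h x)
    _ = ENNReal.ofReal c := by simp

lemma prod_ge {X Y : Type*} [MeasurableSpace X] [MeasurableSpace Y] (μ : Measure X)
    (ν : Measure Y) [IsProbabilityMeasure μ] [IsProbabilityMeasure ν] {S : Set (X × Y)}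
    (hS : MeasurableSet S) {U : Set X} (hU : MeasurableSet U) {c : ℝ} (hc : 0 ≤ c)
    (h : ∀ x ∈ U, c ≤ ν.real (Prod.mk x ⁻¹' S)) :
    c * μ.real U ≤ (μ.prod ν).real S := by
  have h1 : ENNReal.ofReal c * μ U ≤ (μ.prod ν) S := by
    rw [Measure.prod_apply hS, ← lintegral_indicator_const hU]
    apply lintegral_mono
    intro x
    by_cases hx : x ∈ U
    · simp only [indicator_of_mem hx]
      exact ENNReal.ofReal_le_of_le_toReal (h x hx)
    · simp [indicator_of_notMem hx]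
  have h2 := ENNReal.toReal_mono (measure_ne_top _ _) h1
  rwa [ENNReal.toReal_mul, ENNReal.toReal_ofReal hc] at h2

lemma mp_update {κ X : Type*} [Fintype κ] [DecidableEq κ] [MeasurableSpace X] (ν : Measure X)
    [IsProbabilityMeasure ν] (k : κ) :
    MeasurePreserving (fun p : (κ → X) × X => Function.update p.1 k p.2)
      ((Measure.pi fun _ => ν).prod ν) (Measure.pi fun _ => ν) := by
  have hm : Measurable (fun p : (κ → X) × X => Function.update p.1 k p.2) := measurable_update'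
  refine ⟨hm, ?_⟩
  symm
  apply Measure.pi_eq
  intro s hs
  rw [Measure.map_apply hm (MeasurableSet.univ_pi hs)]
  have : (fun p : (κ → X) × X => Function.update p.1 k p.2) ⁻¹' (Set.univ.pi s) =
      (Set.univ.pi (Function.update s k Set.univ)) ×ˢ s k := by
    ext ⟨Z, z⟩
    simp only [Set.mem_preimage, Set.mem_pi, Set.mem_univ, true_imp_iff, Set.mem_prod]
    constructor
    · intro h
      refine ⟨fun i => ?_, by simpa using h k⟩
      by_cases hi : i = k
      · subst hi; simp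
      · have := h i
        simpa [Function.update_of_ne hi] using this
    · rintro ⟨h1, h2⟩ i
      by_cases hi : i = k
      · subst hi; simpa using h2
      · have := h1 i
        simpa [Function.update_of_ne hi] using this
  rw [this, Measure.prod_prod, Measure.pi_pi,
    ← Finset.mul_prod_erase Finset.univ _ (Finset.mem_univ k),
    ← Finset.mul_prod_erase Finset.univ (fun i => ν (s i)) (Finset.mem_univ k)]
  simp only [Function.update_self, measure_univ, one_mul]
  rw [mul_comm]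
  congr 1
  apply Finset.prod_congr rfl
  intro i hi
  rw [Function.update_of_ne (Finset.ne_of_mem_erase hi)]

variable {E : Type*} [NormedAddCommGroup E] [InnerProductSpace ℝ E] [FiniteDimensional ℝ E]

lemma exists_on_perp {J : Type*} [Fintype J] (A : J → E) {d : ℕ}
    (h : d + Fintype.card J ≤ finrank ℝ E) :
    ∃ e : Fin d → E, Orthonormal ℝ e ∧ ∀ l, e l ∈ (Submodule.span ℝ (Set.range A))ᗮ := by
  set W := Submodule.span ℝ (Set.range A)
  have h1 : finrank ℝ W ≤ Fintype.card J := finrank_range_le_card A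
  have h2 := W.finrank_add_finrank_orthogonal
  have h3 : d ≤ finrank ℝ Wᗮ := by omega
  let b := stdOrthonormalBasis ℝ Wᗮ
  refine ⟨fun l => (b (Fin.castLE h3 l) : E), ?_, fun l => (b _).2⟩
  have h4 : Orthonormal ℝ (fun i => (b i : E)) :=
    b.orthonormal.comp_linearIsometry Wᗮ.subtypeₗᵢ
  exact h4.comp _ (Fin.castLE_injective h3)

omit [FiniteDimensional ℝ E] in
lemma norm_sq_comb {κ : Type*} [Fintype κ] {e : κ → E} (he : Orthonormal ℝ e) (v : κ → ℝ) :
    ‖∑ l, v l • e l‖ ^ 2 = ∑ l, v l ^ 2 := by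
  rw [← real_inner_self_eq_norm_sq, he.inner_sum]
  simp [sq]

/-- families of vectors for which the system `⟪A i, a⟫ = w i` has a short solution -/
def Solv {ι : Type*} (w : ι → ℝ) (η : ℝ) : Set (ι → E) :=
  {A | ∃ a ∈ Metric.closedBall (0 : E) η, ∀ i, ⟪A i, a⟫ = w i}

lemma isClosed_solv {ι : Type*} (w : ι → ℝ) (η : ℝ) : IsClosed (Solv (E := E) w η) := by
  apply isClosed_exists (isCompact_closedBall 0 η)
  simp only [ofPred_forall]
  exact isClosed_iInter fun i => isClosed_eq (by fun_prop) continuous_const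

variable [MeasurableSpace E] [BorelSpace E]

lemma solv_prob {ι : Type*} [Fintype ι] [DecidableEq ι] (i₀ : ι) {d : ℕ} (hd0 : 0 < d)
    (hd : d + Fintype.card ι ≤ finrank ℝ E + 1) (w : ι → ℝ) (hw : ∑ i, w i ^ 2 ≤ 1) :
    (Measure.pi fun _ : ι => stdGaussian E).real (Solv w (2 / √d))ᶜ ≤ (3 / 4) ^ d := by
  obtain ⟨O, -, hO, hOw⟩ := exists_orth w i₀
  set c := √(∑ k, w k ^ 2)
  have hc0 : 0 ≤ c := Real.sqrt_nonneg _
  have hc1 : c ≤ 1 := Real.sqrt_le_one.2 hw
  set w' : ι → ℝ := fun i => if i = i₀ then c else 0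
  have hsub : rot O ⁻¹' (Solv (E := E) w (2 / √d))ᶜ ⊆ (Solv w' (2 / √d))ᶜ := by
    intro H hH ⟨a, ha, h⟩
    refine hH ⟨a, ha, fun i => ?_⟩
    rw [inner_rot]
    simp [h, w', hOw]
  have hm : ∀ w : ι → ℝ, MeasurableSet (Solv (E := E) w (2 / √d))ᶜ :=
    fun w => (isClosed_solv w _).measurableSet.compl
  rw [← (mp_rot O hO).measureReal_preimage (hm w).nullMeasurableSet]
  refine (measureReal_mono hsub).trans ?_
  rw [← (mp_update (stdGaussian E) i₀).measureReal_preimage (hm w').nullMeasurableSet]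
  apply prod_le _ _ ((mp_update (stdGaussian E) i₀).measurable (hm w')) (by positivity)
  intro A
  obtain ⟨e, he, hperp⟩ := exists_on_perp (fun j : {i // i ≠ i₀} => A j) (d := d) (by
    rw [Fintype.card_subtype_compl, Fintype.card_subtype_eq]
    have : 0 < Fintype.card ι := Fintype.card_pos_iff.2 ⟨i₀⟩
    omega)
  have hS : MeasurableSet {x : Fin d → ℝ | ∑ l, x l ^ 2 < (Fintype.card (Fin d) : ℝ) / 4} :=
    measurableSet_lt (by fun_prop) measurable_const
  have hchi := chi_lower (Fin d)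
  rw [← coord_law he hS, Fintype.card_fin] at hchi
  refine le_trans (measureReal_mono ?_) hchi
  intro b hb
  by_contra hlt
  apply hb
  simp only [mem_ofPred_eq, not_lt] at hlt
  set s := ∑ l, ⟪e l, b⟫ ^ 2
  have hdpos : (0 : ℝ) < d := by exact_mod_cast hd0
  have hs : 0 < s := by linarith
  set p : E := ∑ l, ⟪e l, b⟫ • e l
  have hp : ‖p‖ ^ 2 = s := norm_sq_comb he _
  refine ⟨(c / s) • p, ?_, fun i => ?_⟩
  · rw [mem_closedBall_zero_iff, norm_smul, Real.norm_eq_abs, abs_of_nonneg (by positivity)]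
    have hsq : 0 < √(d : ℝ) := Real.sqrt_pos.2 hdpos
    have h1 : √(d : ℝ) ≤ 2 * ‖p‖ := by
      apply Real.sqrt_le_iff.2; constructor
      · positivity
      · nlinarith
    have hp0 : 0 < ‖p‖ := by linarith
    rw [← hp, le_div_iff₀ hsq]
    calc c / ‖p‖ ^ 2 * ‖p‖ * √(d : ℝ) = c * (√(d : ℝ) / ‖p‖) := by field_simp
      _ ≤ 1 * 2 := by
          apply mul_le_mul hc1 _ (by positivity) (by norm_num)
          rw [div_le_iff₀ hp0]; exact h1
      _ = 2 := by norm_num
  · by_cases hi : i = i₀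
    · subst hi
      simp only [Function.update_self, w', if_true, real_inner_smul_right]
      have : ⟪b, p⟫ = s := by
        simp only [p, s, inner_sum, real_inner_smul_right, real_inner_comm, sq]
      rw [this]; field_simp
    · simp only [Function.update_of_ne hi, w', if_neg hi, real_inner_smul_right]
      have : ⟪A i, p⟫ = 0 := by
        simp only [p, inner_sum, real_inner_smul_right]
        apply Finset.sum_eq_zero
        intro l _
        have hm : A i ∈ Submodule.span ℝ (Set.range (fun j : {i // i ≠ i₀} => A j)) :=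
          Submodule.subset_span ⟨⟨i, hi⟩, rfl⟩
        rw [Submodule.inner_right_of_mem_orthogonal hm (hperp l), mul_zero]
      rw [this, mul_zero]

section Linear

variable {κ : Type*} [Fintype κ] [DecidableEq κ]

/-- Euclidean norm of a coordinate vector -/
noncomputable def nrm (v : κ → ℝ) : ℝ := ‖(WithLp.toLp 2 v : EuclideanSpace ℝ κ)‖

omit [DecidableEq κ] in
lemma nrm_nonneg (v : κ → ℝ) : 0 ≤ nrm v := norm_nonneg _

omit [DecidableEq κ] in
lemma nrm_sq (v : κ → ℝ) : nrm v ^ 2 = ∑ k, v k ^ 2 := by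
  simp [nrm, EuclideanSpace.real_norm_sq_eq]

omit [DecidableEq κ] in
lemma nrm_add_le (v w : κ → ℝ) : nrm (v + w) ≤ nrm v + nrm w := by
  simp only [nrm, WithLp.toLp_add]; exact norm_add_le _ _

omit [DecidableEq κ] in
lemma nrm_le_of_sq {v : κ → ℝ} {c : ℝ} (hc : 0 ≤ c) (h : ∑ k, v k ^ 2 ≤ c ^ 2) : nrm v ≤ c :=
  (pow_le_pow_iff_left₀ (nrm_nonneg v) hc two_ne_zero).1 (by rwa [nrm_sq])

omit [DecidableEq κ] in
lemma abs_le_nrm (v : κ → ℝ) (k : κ) : |v k| ≤ nrm v := by
  apply abs_le_of_sq_le_sq' _ (nrm_nonneg v) |> fun h => abs_le.2 h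
  rw [nrm_sq]
  exact Finset.single_le_sum (f := fun k => v k ^ 2) (fun _ _ => sq_nonneg _) (Finset.mem_univ k)

omit [DecidableEq κ] in
lemma abs_dot_le (v w : κ → ℝ) : |∑ k, v k * w k| ≤ nrm v * nrm w := by
  apply abs_le_of_sq_le_sq' _ (mul_nonneg (nrm_nonneg v) (nrm_nonneg w)) |> fun h => abs_le.2 h
  rw [mul_pow, nrm_sq, nrm_sq]
  exact Finset.sum_mul_sq_le_sq_mul_sq _ _ _

omit [DecidableEq κ] in
lemma nrm_div_le (v Λ : κ → ℝ) {t : ℝ} (ht : 0 < t) (hΛ : ∀ k, t ≤ Λ k) :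
    nrm (fun k => v k / Λ k) ≤ nrm v / t := by
  apply nrm_le_of_sq (div_nonneg (nrm_nonneg v) ht.le)
  rw [div_pow, nrm_sq, Finset.sum_div]
  apply Finset.sum_le_sum
  intro k _
  rw [div_pow]
  exact div_le_div_of_nonneg_left (sq_nonneg _) (by positivity)
    (pow_le_pow_left₀ ht.le (hΛ k) 2)

lemma err_le {Λ : κ → ℝ} {D : κ → κ → ℝ} {ρ : ℝ} (hρ : 0 ≤ ρ)
    (hD : ∀ k l, |D k l - (if k = l then Λ k else 0)| ≤ ρ) {v z : κ → ℝ}
    (h : ∀ k, ∑ l, D k l * v l = z k) :
    nrm (fun k => Λ k * v k - z k) ≤ ρ * Fintype.card κ * nrm v := by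
  apply nrm_le_of_sq (by have := nrm_nonneg v; positivity)
  have h1 : ∀ k, (Λ k * v k - z k) ^ 2 ≤ ρ ^ 2 * Fintype.card κ * nrm v ^ 2 := by
    intro k
    have h2 : Λ k * v k - z k = ∑ l, ((if k = l then Λ k else 0) - D k l) * v l := by
      simp [← h k, sub_mul, Finset.sum_sub_distrib]
    rw [h2]
    refine (Finset.sum_mul_sq_le_sq_mul_sq _ _ _).trans ?_
    rw [nrm_sq]
    apply mul_le_mul_of_nonneg_right _ (Finset.sum_nonneg fun _ _ => sq_nonneg _)
    calc ∑ l, ((if k = l then Λ k else 0) - D k l) ^ 2 ≤ ∑ _l : κ, ρ ^ 2 := by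
          apply Finset.sum_le_sum
          intro l _
          rw [← sq_abs, abs_sub_comm]
          exact pow_le_pow_left₀ (abs_nonneg _) (hD k l) 2
      _ = ρ ^ 2 * Fintype.card κ := by simp [mul_comm]
  calc ∑ k, (Λ k * v k - z k) ^ 2 ≤ ∑ _k : κ, ρ ^ 2 * Fintype.card κ * nrm v ^ 2 :=
        Finset.sum_le_sum fun k _ => h1 k
    _ = _ := by simp; ring

lemma sol_le {Λ : κ → ℝ} (hΛ : ∀ k, 1 ≤ Λ k) {D : κ → κ → ℝ} {ρ : ℝ} (hρ : 0 ≤ ρ)
    (hD : ∀ k l, |D k l - (if k = l then Λ k else 0)| ≤ ρ) {v z : κ → ℝ}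
    (h : ∀ k, ∑ l, D k l * v l = z k) :
    (1 - ρ * Fintype.card κ) * nrm v ≤ nrm (fun k => z k / Λ k) := by
  have h1 : v = (fun k => z k / Λ k) + fun k => (Λ k * v k - z k) / Λ k := by
    ext k
    have := hΛ k
    simp only [Pi.add_apply]; field_simp; ring
  have h2 := nrm_add_le (fun k => z k / Λ k) (fun k => (Λ k * v k - z k) / Λ k)
  rw [← h1] at h2
  have h3 := nrm_div_le (fun k => Λ k * v k - z k) Λ one_pos hΛ
  have h4 := err_le hρ hD h
  rw [div_one] at h3
  linarith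

lemma exists_sol {Λ : κ → ℝ} (hΛ : ∀ k, 1 ≤ Λ k) {D : κ → κ → ℝ} {ρ : ℝ} (hρ : 0 ≤ ρ)
    (hD : ∀ k l, |D k l - (if k = l then Λ k else 0)| ≤ ρ) (hσ : ρ * Fintype.card κ < 1)
    (z : κ → ℝ) : ∃ v : κ → ℝ, ∀ k, ∑ l, D k l * v l = z k := by
  let T : (κ → ℝ) →ₗ[ℝ] (κ → ℝ) := Matrix.toLin' (Matrix.of D)
  have hT : ∀ v k, T v k = ∑ l, D k l * v l := fun v k => by
    simp [T, Matrix.mulVec, dotProduct]
  have hinj : Function.Injective T := by
    rw [← LinearMap.ker_eq_bot, LinearMap.ker_eq_bot']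
    intro v hv
    have h1 := sol_le hΛ hρ hD (v := v) (z := 0) (fun k => by rw [← hT, hv])
    have h2 : nrm (fun k => (0 : κ → ℝ) k / Λ k) = 0 := by
      simp only [Pi.zero_apply, zero_div]
      exact le_antisymm (nrm_le_of_sq le_rfl (by simp)) (nrm_nonneg _)
    rw [h2] at h1
    have h3 : nrm v ≤ 0 := by
      by_contra h4
      push Not at h4
      nlinarith
    ext k
    have := abs_le_nrm v k
    exact abs_eq_zero.1 (le_antisymm (by linarith) (abs_nonneg _))
  obtain ⟨v, hv⟩ := LinearMap.surjective_of_injective hinj z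
  exact ⟨v, fun k => by rw [← hT, hv]⟩

end Linear

end Pool.Agent.MP_026d7f_an.H77

end

-- part MP_026d7f_an.H77.Frame
section

namespace Pool.Agent.MP_026d7f_an.H77

open MeasureTheory ProbabilityTheory Real Set Module
open scoped RealInnerProductSpace

variable {E : Type*} [NormedAddCommGroup E] [InnerProductSpace ℝ E] [FiniteDimensional ℝ E]

/-- families `G` with a short, well conditioned system `u` satisfying `⟪G i, u j⟫ = O j i` -/
def Frame {ι : Type*} [Fintype ι] (O : ι → ι → ℝ) (η r ζ : ℝ) : Set (ι → E) :=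
  {G | ∃ u ∈ Set.univ.pi (fun _ : ι => Metric.closedBall (0 : E) η),
    (∀ i j, ⟪G i, u j⟫ = O j i) ∧ ‖∑ j, u j‖ ≤ 1 / r ∧ ∀ j, |⟪∑ k, u k, u j⟫| ≤ ζ}

lemma isClosed_frame {ι : Type*} [Fintype ι] (O : ι → ι → ℝ) (η r ζ : ℝ) :
    IsClosed (Frame (E := E) O η r ζ) := by
  apply isClosed_exists (isCompact_univ_pi fun _ => isCompact_closedBall 0 η)
  simp only [ofPred_and, ofPred_forall]
  refine IsClosed.inter ?_ (IsClosed.inter ?_ ?_)
  · exact isClosed_iInter fun i => isClosed_iInter fun j => isClosed_eq (by fun_prop) continuous_const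
  · exact isClosed_le (by fun_prop) continuous_const
  · exact isClosed_iInter fun j => isClosed_le (by fun_prop) continuous_const

omit [FiniteDimensional ℝ E] in
lemma norm_comb {κ : Type*} [Fintype κ] {e : κ → E} (he : Orthonormal ℝ e) (v : κ → ℝ) :
    ‖∑ l, v l • e l‖ = nrm v := by
  rw [← pow_left_inj₀ (norm_nonneg _) (nrm_nonneg v) two_ne_zero, norm_sq_comb he, nrm_sq]

omit [FiniteDimensional ℝ E] in
lemma det_step {μ κ : Type*} [Fintype μ] [Fintype κ] [DecidableEq μ] [DecidableEq κ] (k₀ : κ)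
    {O : μ ⊕ κ → μ ⊕ κ → ℝ} {N : ℝ} (hN : 0 ≤ N)
    (hO1 : ∀ j, ∑ k, O j k ^ 2 = 1) (hO2 : ∀ k, ∑ j, O j k = if k = .inr k₀ then N else 0)
    {A : μ → E} {a : μ ⊕ κ → E} (haW : ∀ j, a j ∈ Submodule.span ℝ (Set.range A))
    (ha : ∀ j i, ⟪A i, a j⟫ = O j (.inl i)) (han : ∀ j, ‖a j‖ ≤ 2 / √(Fintype.card κ))
    {e : κ → E} (he : Orthonormal ℝ e) (hperp : ∀ l, e l ∈ (Submodule.span ℝ (Set.range A))ᗮ)
    {L R ρ r : ℝ} (hL : 1 ≤ L) (hR : L * √(10 * Fintype.card κ) ≤ R) (hρ : 0 ≤ ρ)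
    (hσ : ρ * Fintype.card κ ≤ 1 / 2) (hr : 0 < r) (hrR : r * N ≤ R * (1 - ρ * Fintype.card κ))
    {B : κ → E}
    (hB1 : ∀ k l, |⟪e l, B k⟫ - (if k = l then (if k = k₀ then R else L * √(10 * Fintype.card κ))
      else 0)| ≤ ρ)
    (hB2 : ∀ k j, |⟪a j, B k⟫| ≤ L * (2 / √(Fintype.card κ))) :
    Sum.elim A B ∈ Frame O (4 / √(Fintype.card κ)) r
      ((5 * L / R + 2 * (ρ * Fintype.card κ)) / r) := by
  set D : ℝ := (Fintype.card κ : ℝ) with hD
  have hD1 : 1 ≤ D := by
    have : 0 < Fintype.card κ := Fintype.card_pos_iff.2 ⟨k₀⟩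
    rw [hD]; exact_mod_cast this
  have hsD : 1 ≤ √D := Real.one_le_sqrt.2 hD1
  have hsD2 : √D ^ 2 = D := Real.sq_sqrt (by linarith)
  set t := L * √(10 * D) with ht
  have ht2 : t ^ 2 = 10 * L ^ 2 * D := by
    rw [ht, mul_pow, Real.sq_sqrt (by linarith)]; ring
  have ht1 : 1 ≤ t := by
    have : 1 ≤ √(10 * D) := Real.one_le_sqrt.2 (by linarith)
    rw [ht]; nlinarith
  set Λ : κ → ℝ := fun k => if k = k₀ then R else t
  have hΛt : ∀ k, t ≤ Λ k := fun k => by simp only [Λ]; split_ifs <;> linarith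
  have hΛ : ∀ k, 1 ≤ Λ k := fun k => ht1.trans (hΛt k)
  have hR1 : 1 ≤ R := by linarith
  set σ := ρ * D
  have hσ0 : 0 ≤ σ := by positivity
  set M : κ → κ → ℝ := fun k l => ⟪e l, B k⟫
  have hM : ∀ k l, |M k l - (if k = l then Λ k else 0)| ≤ ρ := hB1
  set z : μ ⊕ κ → κ → ℝ := fun j k => O j (.inr k) - ⟪a j, B k⟫
  choose v hv using fun j => exists_sol hΛ hρ hM (by change σ < 1; linarith) (z j)
  have hae : ∀ j l, ⟪a j, e l⟫ = 0 := fun j l =>
    Submodule.inner_right_of_mem_orthogonal (haW j) (hperp l)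
  have hAe : ∀ i l, ⟪A i, e l⟫ = 0 := fun i l =>
    Submodule.inner_right_of_mem_orthogonal (K := Submodule.span ℝ (Set.range A))
      (Submodule.subset_span ⟨i, rfl⟩) (hperp l)
  have hz : ∀ j, nrm (z j) ≤ √10 * L := by
    intro j
    apply nrm_le_of_sq (by positivity)
    have h1 : ∑ k, O j (.inr k) ^ 2 ≤ 1 := by
      rw [← hO1 j, Fintype.sum_sum_type]
      have : 0 ≤ ∑ i, O j (.inl i) ^ 2 := Finset.sum_nonneg fun _ _ => sq_nonneg _
      linarith
    have h2 : ∀ k, z j k ^ 2 ≤ 2 * O j (.inr k) ^ 2 + 8 * L ^ 2 / D := by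
      intro k
      have h3 : ⟪a j, B k⟫ ^ 2 ≤ (L * (2 / √D)) ^ 2 := by
        rw [← sq_abs]; exact pow_le_pow_left₀ (abs_nonneg _) (hB2 k j) 2
      have h4 : (L * (2 / √D)) ^ 2 = 4 * L ^ 2 / D := by
        rw [mul_pow, div_pow, hsD2]; ring
      have h5 : 8 * L ^ 2 / D = 2 * (4 * L ^ 2 / D) := by ring
      simp only [z]
      nlinarith [sq_nonneg (O j (.inr k) + ⟪a j, B k⟫)]
    calc ∑ k, z j k ^ 2 ≤ ∑ k, (2 * O j (.inr k) ^ 2 + 8 * L ^ 2 / D) :=
          Finset.sum_le_sum fun k _ => h2 k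
      _ = 2 * ∑ k, O j (.inr k) ^ 2 + 8 * L ^ 2 := by
          rw [Finset.sum_add_distrib, ← Finset.mul_sum]
          simp only [Finset.sum_const, Finset.card_univ, nsmul_eq_mul, ← hD]
          field_simp
      _ ≤ (√10 * L) ^ 2 := by
          rw [mul_pow, Real.sq_sqrt (by norm_num)]; nlinarith
  have hvn : ∀ j, nrm (v j) ≤ 2 / √D := by
    intro j
    have h1 := sol_le hΛ hρ hM (hv j)
    have h2 := nrm_div_le (z j) Λ (by linarith) hΛt
    have h3 : nrm (z j) / t ≤ 1 / √D := by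
      rw [div_le_div_iff₀ (by linarith) (by linarith), ht, Real.sqrt_mul (by norm_num)]
      have := hz j
      nlinarith
    have h4 := nrm_nonneg (v j)
    have h5 : 2 / √D = 2 * (1 / √D) := by ring
    change (1 - σ) * _ ≤ _ at h1
    nlinarith
  set V : κ → ℝ := ∑ j, v j
  have hsa : ∑ j, a j = 0 := by
    have h1 : ∑ j, a j ∈ Submodule.span ℝ (Set.range A) := Submodule.sum_mem _ fun j _ => haW j
    have h2 : ∑ j, a j ∈ (Submodule.span ℝ (Set.range A))ᗮ := by
      rw [Submodule.mem_orthogonal]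
      intro w hw
      induction hw using Submodule.span_induction with
      | mem x hx =>
        obtain ⟨i, rfl⟩ := hx
        rw [inner_sum]; simp [ha, hO2]
      | zero => simp
      | add x y _ _ hx hy => rw [inner_add_left, hx, hy, add_zero]
      | smul c x _ hx => rw [real_inner_smul_left, hx, mul_zero]
    exact inner_self_eq_zero.1 (Submodule.inner_right_of_mem_orthogonal h1 h2)
  have hV : ∀ k, ∑ l, M k l * V l = if k = k₀ then N else 0 := by
    intro k
    simp only [V, Finset.sum_apply, Finset.mul_sum]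
    rw [Finset.sum_comm]
    simp only [hv, z, Finset.sum_sub_distrib, hO2, ← sum_inner, hsa]
    simp
  have hVn : nrm V ≤ 1 / r := by
    have h1 := sol_le hΛ hρ hM hV
    have h2 : nrm (fun k => (if k = k₀ then N else 0) / Λ k) ≤ N / R := by
      apply nrm_le_of_sq (by positivity)
      rw [Finset.sum_eq_single k₀] <;> simp +contextual [Λ]
    change (1 - σ) * _ ≤ _ at h1
    have h3 : N / R ≤ (1 - σ) / r := by
      rw [div_le_div_iff₀ (by linarith) hr]; linarith
    have h4 : (1 - σ) * nrm V ≤ (1 - σ) * (1 / r) := by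
      calc _ ≤ (1 - σ) / r := h1.trans (h2.trans h3)
        _ = _ := by ring
    exact le_of_mul_le_mul_left h4 (by linarith)
  set u : μ ⊕ κ → E := fun j => a j + ∑ l, v j l • e l
  have hsu : ∑ j, u j = ∑ l, V l • e l := by
    simp only [u, Finset.sum_add_distrib, hsa, zero_add, V, Finset.sum_apply, Finset.sum_smul]
    rw [Finset.sum_comm]
  refine ⟨u, fun j _ => ?_, ?_, ?_, fun j => ?_⟩
  · rw [mem_closedBall_zero_iff]
    calc ‖u j‖ ≤ ‖a j‖ + ‖∑ l, v j l • e l‖ := norm_add_le _ _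
      _ ≤ 2 / √D + 2 / √D := by rw [norm_comb he]; linarith [han j, hvn j]
      _ = 4 / √D := by ring
  · rintro (i | k) j
    · simp [u, inner_add_right, inner_sum, real_inner_smul_right, hAe, ha]
    · have := hv j k
      simp only [M, z] at this
      simp only [u, Sum.elim_inr, inner_add_right, inner_sum, real_inner_smul_right]
      simp only [mul_comm (v j _), ← real_inner_comm (B k)]
      linarith
  · rw [hsu, norm_comb he]; exact hVn
  · have h1 : ⟪∑ k, u k, u j⟫ = ∑ l, V l * v j l := by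
      rw [hsu, inner_add_right, he.inner_sum, sum_inner]
      have h0 : ∀ l, ⟪e l, a j⟫ = 0 := fun l => by rw [real_inner_comm, hae]
      simp [real_inner_smul_left, h0]
    have h2 : ∀ l, V l * v j l = (if l = k₀ then N / R * v j l else 0)
        + (Λ l * V l - if l = k₀ then N else 0) / Λ l * v j l := by
      intro l
      have := hΛ l
      by_cases hl : l = k₀
      · subst hl; simp only [Λ, if_true]; field_simp; ring
      · simp only [if_neg hl]; field_simp; ring
    rw [h1, Finset.sum_congr rfl fun l _ => h2 l, Finset.sum_add_distrib, Finset.sum_ite_eq']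
    simp only [Finset.mem_univ, if_true]
    have h3 := abs_dot_le (fun l => (Λ l * V l - if l = k₀ then N else 0) / Λ l) (v j)
    have h4 := nrm_div_le (fun l => Λ l * V l - if l = k₀ then N else 0) Λ one_pos hΛ
    have h5 := err_le hρ hM hV
    have hv2 : nrm (v j) ≤ 2 := (hvn j).trans (by rw [div_le_iff₀ (by linarith)]; linarith)
    have h6 : nrm (fun l => (Λ l * V l - if l = k₀ then N else 0) / Λ l) * nrm (v j)
        ≤ σ * (1 / r) * 2 := by
      apply mul_le_mul _ hv2 (nrm_nonneg _) (by positivity)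
      rw [div_one] at h4
      exact h4.trans (h5.trans (mul_le_mul_of_nonneg_left hVn hσ0))
    have h7 : |v j k₀| ≤ 5 * L / R := by
      have h8 := (abs_le_nrm (fun k => Λ k * v j k - z j k) k₀).trans (err_le hρ hM (hv j))
      have h9 := (abs_le_nrm (z j) k₀).trans (hz j)
      have h10 : √10 ≤ 4 := Real.sqrt_le_iff.2 ⟨by norm_num, by norm_num⟩
      simp only [Λ, if_true] at h8
      change _ ≤ σ * _ at h8
      have h11 : σ * nrm (v j) ≤ 1 := by nlinarith [nrm_nonneg (v j)]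
      rw [le_div_iff₀ (by linarith)]
      have h12 : |R * v j k₀| ≤ |R * v j k₀ - z j k₀| + |z j k₀| := by
        simpa using abs_add_le (R * v j k₀ - z j k₀) (z j k₀)
      rw [abs_mul, abs_of_pos (by linarith : 0 < R)] at h12
      nlinarith
    have h13 : N / R ≤ 1 / r := by
      rw [div_le_div_iff₀ (by linarith) hr]; nlinarith
    have h14 : |N / R * v j k₀| ≤ 1 / r * (5 * L / R) := by
      rw [abs_mul, abs_of_nonneg (by positivity)]
      exact mul_le_mul h13 h7 (abs_nonneg _) (by positivity)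
    calc _ ≤ _ := abs_add_le _ _
      _ ≤ 1 / r * (5 * L / R) + σ * (1 / r) * 2 := add_le_add h14 (h3.trans h6)
      _ = _ := by ring

variable [MeasurableSpace E] [BorelSpace E]

lemma row_prob {κ J : Type*} [Fintype κ] [Fintype J] {e : κ → E} (he : Orthonormal ℝ e)
    {a : J → E} (ha : ∀ j l, ⟪a j, e l⟫ = 0) {η L ρ : ℝ} (han : ∀ j, ‖a j‖ ≤ η) (hL : 1 ≤ L)
    (hJ : Fintype.card J * exp (-L ^ 2 / 2) ≤ 1 / 2) (hρ : 0 ≤ ρ) (x : κ → ℝ) :
    (∏ l, ρ / 2 * exp (-(|x l| + ρ) ^ 2 / 2)) * (1 / 2) ≤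
      (stdGaussian E).real {b | (∀ l, |⟪e l, b⟫ - x l| ≤ ρ) ∧ ∀ j, |⟪a j, b⟫| ≤ L * η} := by
  have hS : MeasurableSet (Set.univ.pi fun l => Icc (x l - ρ) (x l + ρ)) :=
    MeasurableSet.univ_pi fun _ => measurableSet_Icc
  have hT : MeasurableSet (Set.univ.pi fun _ : J => Icc (-(L * η)) (L * η)) :=
    MeasurableSet.univ_pi fun _ => measurableSet_Icc
  have h := row_indep he a ha hS hT
  have e1 : {b : E | (∀ l, |⟪e l, b⟫ - x l| ≤ ρ) ∧ ∀ j, |⟪a j, b⟫| ≤ L * η}
      = {g | (fun l => ⟪e l, g⟫) ∈ (Set.univ.pi fun l => Icc (x l - ρ) (x l + ρ)) ∧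
        (fun j => ⟪a j, g⟫) ∈ (Set.univ.pi fun _ : J => Icc (-(L * η)) (L * η))} := by
    ext g
    simp only [mem_ofPred_eq, mem_pi, mem_univ, true_imp_iff, mem_Icc, abs_le]
    refine and_congr (forall_congr' fun l => ?_) Iff.rfl
    constructor <;> rintro ⟨h1, h2⟩ <;> constructor <;> linarith
  rw [e1, h]
  apply mul_le_mul _ _ (by norm_num) measureReal_nonneg
  · rw [measureReal_def, Measure.pi_pi, ENNReal.toReal_prod]
    exact Finset.prod_le_prod (fun l _ => by positivity) fun l _ => box_lower (x l) hρ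
  · set U := {g : E | (fun j => ⟪a j, g⟫) ∈ (Set.univ.pi fun _ : J => Icc (-(L * η)) (L * η))}
    have hU : MeasurableSet U :=
      (show Measurable (fun g : E => fun j => ⟪a j, g⟫) by fun_prop) hT
    have hc : Uᶜ ⊆ ⋃ j, {g | L * η < |⟪a j, g⟫|} := by
      intro g hg
      simp only [U, mem_compl_iff, mem_ofPred_eq, mem_pi, mem_univ, true_imp_iff, mem_Icc,
        ← abs_le, not_forall, not_le] at hg
      simpa using hg
    have h1 : (stdGaussian E).real Uᶜ ≤ 1 / 2 := by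
      refine (measureReal_mono hc).trans ((measureReal_iUnion_fintype_le _).trans ?_)
      refine le_trans ?_ hJ
      calc ∑ j, (stdGaussian E).real {g | L * η < |⟪a j, g⟫|} ≤ ∑ _j : J, exp (-L ^ 2 / 2) := by
            apply Finset.sum_le_sum
            intro j _
            refine (tail_abs_inner (a j) (s := L) (by linarith) ?_).trans ?_
            · rw [mul_comm]; exact mul_le_mul_of_nonneg_left (han j) (by linarith)
            · exact div_le_self (exp_pos _).le hL
        _ = _ := by simp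
    rw [probReal_compl_eq_one_sub hU] at h1
    linarith

/-- lower bound for the probability of a good frame -/
noncomputable def frameLB (D : ℕ) (L R ρ : ℝ) : ℝ :=
  (ρ / 4) ^ (D ^ 2) * exp (-((R + ρ) ^ 2 + D * (L * √(10 * D) + ρ) ^ 2 + D ^ 2 * ρ ^ 2) / 2) / 2

lemma frameLB_le {κ : Type*} [Fintype κ] [DecidableEq κ] (k₀ : κ) {L R ρ : ℝ} (hL : 0 ≤ L)
    (hR : 0 ≤ R) (hρ : 0 ≤ ρ) :
    frameLB (Fintype.card κ) L R ρ ≤ (∏ k : κ, (∏ l : κ, ρ / 2 * exp (-(|if k = l then
      (if k = k₀ then R else L * √(10 * Fintype.card κ)) else 0| + ρ) ^ 2 / 2)) * (1 / 2)) * (1 / 2) := by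
  set D := Fintype.card κ with hD
  have hD1 : 1 ≤ D := Fintype.card_pos_iff.2 ⟨k₀⟩
  set t := L * √(10 * D)
  have ht : 0 ≤ t := by positivity
  simp only [Finset.prod_mul_distrib, Finset.prod_const, Finset.card_univ, ← hD, ← Real.exp_sum]
  rw [frameLB, div_eq_mul_one_div _ (2 : ℝ)]
  apply mul_le_mul_of_nonneg_right _ (by norm_num)
  rw [mul_right_comm]
  apply mul_le_mul _ _ (exp_pos _).le (by positivity)
  · rw [← pow_mul, show ρ / 4 = ρ / 2 * (1 / 2) by ring, mul_pow, sq]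
    apply mul_le_mul_of_nonneg_left _ (by positivity)
    exact pow_le_pow_of_le_one (by norm_num) (by norm_num) (Nat.le_mul_self D)
  · apply exp_le_exp.2
    have h1 : ∀ k l : κ, (|if k = l then (if k = k₀ then R else t) else 0| + ρ) ^ 2 ≤
        (if k = l then (if k = k₀ then (R + ρ) ^ 2 else 0) + (t + ρ) ^ 2 else 0) + ρ ^ 2 := by
      intro k l
      split_ifs
      · rw [abs_of_nonneg hR]; nlinarith [sq_nonneg (t + ρ), sq_nonneg ρ]
      · rw [abs_of_nonneg ht]; nlinarith [sq_nonneg ρ]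
      · simp
    have h2 : ∑ k : κ, ∑ l : κ, (|if k = l then (if k = k₀ then R else t) else 0| + ρ) ^ 2 ≤
        (R + ρ) ^ 2 + D * (t + ρ) ^ 2 + D ^ 2 * ρ ^ 2 := by
      refine (Finset.sum_le_sum fun k _ => Finset.sum_le_sum fun l _ => h1 k l).trans (le_of_eq ?_)
      simp [Finset.sum_add_distrib, ← hD]; ring
    simp only [neg_div, Finset.sum_neg_distrib, ← Finset.sum_div]
    linarith

lemma frame_prob {μ κ : Type*} [Fintype μ] [Fintype κ] [DecidableEq μ] [DecidableEq κ]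
    (i₀ : μ) (k₀ : κ) (hE : finrank ℝ E = Fintype.card (μ ⊕ κ)) {L R ρ r : ℝ} (hL : 1 ≤ L)
    (hR : L * √(10 * Fintype.card κ) ≤ R) (hρ : 0 ≤ ρ) (hσ : ρ * Fintype.card κ ≤ 1 / 2)
    (hr : 0 < r) (hrR : r * √(Fintype.card (μ ⊕ κ)) ≤ R * (1 - ρ * Fintype.card κ))
    (h1 : Fintype.card (μ ⊕ κ) * (3 / 4 : ℝ) ^ Fintype.card κ ≤ 1 / 2)
    (h2 : Fintype.card (μ ⊕ κ) * exp (-L ^ 2 / 2) ≤ 1 / 2) :
    frameLB (Fintype.card κ) L R ρ ≤ (Measure.pi fun _ : μ ⊕ κ => stdGaussian E).real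
      (Frame (fun i j => if i = j then 1 else 0) (4 / √(Fintype.card κ)) r
        ((5 * L / R + 2 * (ρ * Fintype.card κ)) / r)) := by
  obtain ⟨O, hOs, hO, hOw⟩ := exists_orth (fun _ : μ ⊕ κ => (1 : ℝ)) (.inr k₀)
  simp only [one_pow, Finset.sum_const, Finset.card_univ, nsmul_eq_mul, mul_one] at hOw
  set N := √(Fintype.card (μ ⊕ κ) : ℝ)
  set η := 4 / √(Fintype.card κ : ℝ)
  set ζ := (5 * L / R + 2 * (ρ * Fintype.card κ)) / r
  have hO1 : ∀ j, ∑ k, O j k ^ 2 = 1 := fun j => by simpa [sq] using hO j j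
  have hO2 : ∀ k, ∑ j, O j k = if k = .inr k₀ then N else 0 := by
    intro k
    have : ∑ j, O j k = (∑ j, O k j * O (.inr k₀) j) * N := by
      rw [Finset.sum_mul]
      refine Finset.sum_congr rfl fun j _ => ?_
      rw [mul_assoc, hOs (.inr k₀) j, hOw j, mul_one, hOs]
    rw [this, hO]; simp
  have hsub : Frame (E := E) O η r ζ ⊆
      rot O ⁻¹' Frame (fun i j => if i = j then 1 else 0) η r ζ := by
    rintro H ⟨u, hu, h3, h4⟩
    refine ⟨u, hu, fun i j => ?_, h4⟩
    rw [inner_rot]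
    simp only [h3, hO, eq_comm]
  rw [← (mp_rot O hO).measureReal_preimage (isClosed_frame _ _ _ _).measurableSet.nullMeasurableSet]
  refine le_trans ?_ (measureReal_mono hsub)
  have hmp := measurePreserving_sumPiEquivProdPi_symm (X := fun _ : μ ⊕ κ => E)
    (fun _ => stdGaussian E)
  have hmF := (isClosed_frame (E := E) O η r ζ).measurableSet
  rw [← hmp.measureReal_preimage hmF.nullMeasurableSet]
  set U : Set (μ → E) := ⋂ j, Solv (fun i => O j (.inl i)) (2 / √(Fintype.card κ : ℝ))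
  have hU : MeasurableSet U := MeasurableSet.iInter fun j => (isClosed_solv _ _).measurableSet
  have hκ : 0 < Fintype.card κ := Fintype.card_pos_iff.2 ⟨k₀⟩
  have hUp : 1 / 2 ≤ (Measure.pi fun _ : μ => stdGaussian E).real U := by
    have h3 : (Measure.pi fun _ : μ => stdGaussian E).real Uᶜ ≤ 1 / 2 := by
      rw [compl_iInter]
      refine (measureReal_iUnion_fintype_le _).trans (le_trans ?_ h1)
      calc _ ≤ ∑ _j : μ ⊕ κ, (3 / 4 : ℝ) ^ Fintype.card κ := by
            apply Finset.sum_le_sum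
            intro j _
            apply solv_prob i₀ hκ (by rw [hE, Fintype.card_sum]; omega)
            rw [← hO1 j, Fintype.sum_sum_type]
            have : 0 ≤ ∑ k, O j (.inr k) ^ 2 := Finset.sum_nonneg fun _ _ => sq_nonneg _
            linarith
        _ = _ := by simp
    rw [probReal_compl_eq_one_sub hU] at h3
    linarith
  have hR0 : 0 ≤ R := le_trans (by positivity) hR
  refine (frameLB_le k₀ (by linarith) hR0 hρ).trans ?_
  refine le_trans (mul_le_mul_of_nonneg_left hUp (by positivity)) ?_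
  apply prod_ge _ _ (hmp.measurable hmF) hU (by positivity)
  intro A hA
  choose a₀ ha₀ ha₀' using fun j => mem_iInter.1 hA j
  set W := Submodule.span ℝ (Set.range A)
  set a : μ ⊕ κ → E := fun j => W.starProjection (a₀ j)
  have haW : ∀ j, a j ∈ W := fun j => W.starProjection_apply_mem _
  have ha : ∀ j i, ⟪A i, a j⟫ = O j (.inl i) := by
    intro j i
    have h5 : ⟪A i, a₀ j⟫ = O j (.inl i) := ha₀' j i
    have h3 : A i ∈ W := Submodule.subset_span ⟨i, rfl⟩
    have h4 := Submodule.inner_right_of_mem_orthogonal h3 (W.sub_starProjection_mem_orthogonal (a₀ j))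
    rw [inner_sub_right] at h4
    simp only [a]; linarith
  have han : ∀ j, ‖a j‖ ≤ 2 / √(Fintype.card κ : ℝ) := fun j =>
    (W.norm_starProjection_apply_le _).trans (mem_closedBall_zero_iff.1 (ha₀ j))
  obtain ⟨e₀, he₀, hperp₀⟩ := exists_on_perp A (d := Fintype.card κ)
    (by rw [hE, Fintype.card_sum]; omega)
  set e : κ → E := e₀ ∘ Fintype.equivFin κ
  have he : Orthonormal ℝ e := he₀.comp _ (Fintype.equivFin κ).injective
  have hperp : ∀ l, e l ∈ Wᗮ := fun l => hperp₀ _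
  have hae : ∀ j l, ⟪a j, e l⟫ = 0 := fun j l =>
    Submodule.inner_right_of_mem_orthogonal (haW j) (hperp l)
  set x : κ → κ → ℝ := fun k l =>
    if k = l then (if k = k₀ then R else L * √(10 * Fintype.card κ)) else 0
  set S : κ → Set E := fun k => {b | (∀ l, |⟪e l, b⟫ - x k l| ≤ ρ) ∧
    ∀ j, |⟪a j, b⟫| ≤ L * (2 / √(Fintype.card κ : ℝ))}
  have hsub2 : Set.univ.pi S ⊆ Prod.mk A ⁻¹' ((MeasurableEquiv.sumPiEquivProdPi
      (fun _ : μ ⊕ κ => E)).symm ⁻¹' Frame O η r ζ) := by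
    intro B hB
    have := det_step k₀ (Real.sqrt_nonneg _) hO1 hO2 haW ha han he hperp hL hR hρ hσ hr hrR
      (B := B) (fun k => (hB k trivial).1) (fun k => (hB k trivial).2)
    simp only [mem_preimage]
    convert this using 1
    ext (i | k) <;> simp [MeasurableEquiv.coe_sumPiEquivProdPi_symm]
  refine le_trans ?_ (measureReal_mono hsub2)
  rw [measureReal_def, Measure.pi_pi, ENNReal.toReal_prod]
  exact Finset.prod_le_prod (fun k _ => by positivity)
    fun k _ => row_prob he hae han hL h2 hρ (x k)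

end Pool.Agent.MP_026d7f_an.H77

end

-- part MP_026d7f_an.H77.Pool
section

namespace Pool.Agent.MP_026d7f_an.H77

open MeasureTheory ProbabilityTheory Real Set Module
open scoped RealInnerProductSpace

variable {E : Type*} [NormedAddCommGroup E] [InnerProductSpace ℝ E] [FiniteDimensional ℝ E]

/-- functionals compatible with the dual system `u` -/
def Ok {ι : Type*} [Fintype ι] (u : ι → E) (δ : ℝ) : Set E :=
  {g | |⟪∑ k, u k, g⟫| ≤ 1 - δ ∧ ∀ j, |⟪∑ k, u k - (2 : ℝ) • u j, g⟫| ≤ 1}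

/-- pools in which the transversal `φ` is a good frame -/
def Good {ι : Type*} [Fintype ι] [DecidableEq ι] {q : ℕ} (φ : ι → Fin q) (η δ : ℝ) :
    Set (ι × Fin q → E) :=
  {ω | ∃ u ∈ Set.univ.pi (fun _ : ι => Metric.closedBall (0 : E) η),
    (∀ i j, ⟪ω (i, φ i), u j⟫ = if j = i then 1 else 0) ∧ ∀ k, k.2 ≠ φ k.1 → ω k ∈ Ok u δ}

lemma isClosed_good {ι : Type*} [Fintype ι] [DecidableEq ι] {q : ℕ} (φ : ι → Fin q) (η δ : ℝ) :
    IsClosed (Good (E := E) φ η δ) := by
  apply isClosed_exists (isCompact_univ_pi fun _ => isCompact_closedBall 0 η)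
  simp only [Ok, mem_ofPred_eq]
  simp only [ofPred_and, ofPred_forall]
  refine IsClosed.inter ?_ ?_
  · exact isClosed_iInter fun i => isClosed_iInter fun j => isClosed_eq (by fun_prop) continuous_const
  · refine isClosed_iInter fun k => isClosed_iInter fun _ => IsClosed.inter ?_ ?_
    · exact isClosed_le (by fun_prop) continuous_const
    · exact isClosed_iInter fun j => isClosed_le (by fun_prop) continuous_const

variable [MeasurableSpace E] [BorelSpace E]

omit [FiniteDimensional ℝ E] in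
lemma measurableSet_ok {ι : Type*} [Fintype ι] (u : ι → E) (δ : ℝ) : MeasurableSet (Ok u δ) := by
  apply IsClosed.measurableSet
  simp only [Ok, ofPred_and, ofPred_forall]
  exact (isClosed_le (by fun_prop) continuous_const).inter
    (isClosed_iInter fun j => isClosed_le (by fun_prop) continuous_const)

lemma arith_z {lam Y U I η ζ d : ℝ} (hl : 1 ≤ lam) (h5 : Y ≤ d) (h6 : U ≤ η ^ 2) (h7 : -ζ ≤ I)
    (hζ0 : 0 ≤ ζ) (h8 : 16 * ζ ≤ d ^ 2) (h9 : 32 * lam * η ^ 2 ≤ d ^ 2) (hU : 0 ≤ U) :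
    Y - 4 * (1 + lam) * I + 4 * (1 + lam) ^ 2 * U ≤ d * (1 + lam * d) := by
  have h10 : -(4 * (1 + lam) * I) ≤ 8 * lam * ζ := by nlinarith
  have h11 : (1 + lam) ^ 2 ≤ 4 * lam ^ 2 := by nlinarith
  have h12 : (1 + lam) ^ 2 * U ≤ 4 * lam ^ 2 * η ^ 2 := mul_le_mul h11 h6 hU (by positivity)
  have h13 : lam * (16 * ζ) ≤ lam * d ^ 2 := mul_le_mul_of_nonneg_left h8 (by linarith)
  have h14 : lam * (32 * lam * η ^ 2) ≤ lam * d ^ 2 := mul_le_mul_of_nonneg_left h9 (by linarith)
  nlinarith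

lemma bad_prob {ι : Type*} [Fintype ι] {u : ι → E} {η r ζ δ lam : ℝ} (hu : ∀ j, ‖u j‖ ≤ η)
    (hy : ‖∑ j, u j‖ ≤ 1 / r) (hζ : ∀ j, |⟪∑ k, u k, u j⟫| ≤ ζ) (hr : 2 ≤ r) (hδ : δ ≤ 1 / r ^ 2)
    (hl : 1 ≤ lam) (h1 : 16 * r ^ 4 * ζ ≤ 1) (h2 : 32 * lam * r ^ 4 * η ^ 2 ≤ 1)
    (h3 : Fintype.card ι * r * exp (-lam / 2) ≤ 1) :
    (stdGaussian E).real (Ok u δ)ᶜ ≤ 5 * exp (-r ^ 2 / 2) / r := by
  set y := ∑ j, u j
  have hr0 : 0 < r := by linarith
  set d := 1 / r ^ 2 with hd
  have hd0 : 0 < d := by positivity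
  have hd1 : d ≤ 1 / 4 := by
    rw [hd]; apply one_div_le_one_div_of_le (by norm_num); nlinarith
  have hdr : d * r ^ 2 = 1 := by rw [hd]; field_simp
  set z : ι → E := fun j => y - (2 * (1 + lam)) • u j
  have hsub : (Ok u δ)ᶜ ⊆ {g | 1 - d < |⟪y, g⟫|} ∪ ⋃ j, {g | 1 + lam * d < |⟪z j, g⟫|} := by
    intro g hg
    by_cases hg1 : 1 - d < |⟪y, g⟫|
    · exact Or.inl hg1
    right
    push Not at hg1
    have : ¬ ∀ j, |⟪y - (2 : ℝ) • u j, g⟫| ≤ 1 := fun h => hg ⟨by linarith, h⟩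
    push Not at this
    obtain ⟨j, hj⟩ := this
    refine mem_iUnion.2 ⟨j, ?_⟩
    simp only [z, mem_ofPred_eq, inner_sub_left, real_inner_smul_left] at hj ⊢
    rw [abs_le] at hg1
    rcases lt_abs.1 hj with h | h
    · apply lt_abs.2; left; nlinarith
    · apply lt_abs.2; right; nlinarith
  have hA : (stdGaussian E).real {g | 1 - d < |⟪y, g⟫|} ≤ 4 * exp (-r ^ 2 / 2) / r := by
    refine (tail_abs_inner y (s := (1 - d) * r) (by nlinarith) ?_).trans ?_
    · calc ‖y‖ * ((1 - d) * r) ≤ 1 / r * ((1 - d) * r) :=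
            mul_le_mul_of_nonneg_right hy (by nlinarith)
        _ = 1 - d := by field_simp
    · have h4 : exp (-((1 - d) * r) ^ 2 / 2) ≤ exp 1 * exp (-r ^ 2 / 2) := by
        rw [← exp_add]; apply exp_le_exp.2; nlinarith [sq_nonneg (d * r)]
      have h5 := Real.exp_one_lt_d9
      have h6 := exp_pos (-r ^ 2 / 2)
      rw [div_le_div_iff₀ (by nlinarith) hr0]
      have h7 : exp (-((1 - d) * r) ^ 2 / 2) ≤ 3 * exp (-r ^ 2 / 2) := by nlinarith
      have h8 : 3 * exp (-r ^ 2 / 2) ≤ 4 * exp (-r ^ 2 / 2) * (1 - d) := by nlinarith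
      nlinarith
  have hB : ∀ j, (stdGaussian E).real {g | 1 + lam * d < |⟪z j, g⟫|}
      ≤ exp (-lam / 2) * exp (-r ^ 2 / 2) := by
    intro j
    have hs : 1 ≤ √(r ^ 2 + lam) := Real.one_le_sqrt.2 (by nlinarith)
    have hs2 : √(r ^ 2 + lam) ^ 2 = r ^ 2 + lam := Real.sq_sqrt (by nlinarith)
    refine (tail_abs_inner (z j) (s := √(r ^ 2 + lam)) (by linarith) ?_).trans ?_
    · apply (pow_le_pow_iff_left₀ (by positivity) (by positivity) two_ne_zero).1
      rw [mul_pow, hs2]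
      have h4 : ‖z j‖ ^ 2 = ‖y‖ ^ 2 - 4 * (1 + lam) * ⟪y, u j⟫ + 4 * (1 + lam) ^ 2 * ‖u j‖ ^ 2 := by
        simp only [z]
        rw [norm_sub_sq_real, real_inner_smul_right, norm_smul, mul_pow, Real.norm_eq_abs, sq_abs]
        ring
      have h5 : ‖y‖ ^ 2 ≤ d := by
        calc ‖y‖ ^ 2 ≤ (1 / r) ^ 2 := pow_le_pow_left₀ (norm_nonneg _) hy 2
          _ = d := by rw [hd]; field_simp
      have h6 : ‖u j‖ ^ 2 ≤ η ^ 2 := pow_le_pow_left₀ (norm_nonneg _) (hu j) 2
      have h7 := (abs_le.1 (hζ j)).1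
      have hζ0 : 0 ≤ ζ := (abs_nonneg _).trans (hζ j)
      have h8 : 16 * ζ ≤ d ^ 2 := by
        have : d ^ 2 * r ^ 4 = 1 := by rw [hd]; field_simp
        nlinarith [pow_pos hd0 2]
      have h9 : 32 * lam * η ^ 2 ≤ d ^ 2 := by
        have : d ^ 2 * r ^ 4 = 1 := by rw [hd]; field_simp
        nlinarith [pow_pos hd0 2]
      have h12 : ‖z j‖ ^ 2 ≤ d * (1 + lam * d) := by
        rw [h4]; exact arith_z hl h5 h6 h7 hζ0 h8 h9 (sq_nonneg _)
      calc ‖z j‖ ^ 2 * (r ^ 2 + lam) ≤ d * (1 + lam * d) * (r ^ 2 + lam) :=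
            mul_le_mul_of_nonneg_right h12 (by positivity)
        _ = (1 + lam * d) * (d * r ^ 2 + lam * d) := by ring
        _ = _ := by rw [hdr]; ring
    · rw [hs2, ← exp_add]
      refine (div_le_self (exp_pos _).le hs).trans (le_of_eq ?_)
      congr 1; ring
  refine (measureReal_mono hsub).trans ((measureReal_union_le _ _).trans ?_)
  have hC : (stdGaussian E).real (⋃ j, {g | 1 + lam * d < |⟪z j, g⟫|}) ≤ exp (-r ^ 2 / 2) / r := by
    refine (measureReal_iUnion_fintype_le _).trans ((Finset.sum_le_sum fun j _ => hB j).trans ?_)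
    simp only [Finset.sum_const, Finset.card_univ, nsmul_eq_mul]
    rw [le_div_iff₀ hr0]
    nlinarith [exp_pos (-r ^ 2 / 2)]
  have : 5 * exp (-r ^ 2 / 2) / r = 4 * exp (-r ^ 2 / 2) / r + exp (-r ^ 2 / 2) / r := by ring
  linarith

lemma good_prob {ι : Type*} [Fintype ι] [DecidableEq ι] {q : ℕ} (φ : ι → Fin q)
    {η r ζ δ p : ℝ} (hp1 : p ≤ 1)
    (hp : ∀ u : ι → E, (∀ j, ‖u j‖ ≤ η) → ‖∑ j, u j‖ ≤ 1 / r → (∀ j, |⟪∑ k, u k, u j⟫| ≤ ζ) →
      (stdGaussian E).real (Ok u δ)ᶜ ≤ p) (hp0 : 0 ≤ p) :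
    (1 - p) ^ (Fintype.card ι * q) * (Measure.pi fun _ : ι => stdGaussian E).real
      (Frame (fun i j => if i = j then 1 else 0) η r ζ)
      ≤ (Measure.pi fun _ : ι × Fin q => stdGaussian E).real (Good φ η δ) := by
  let P : ι × Fin q → Prop := fun k => k.2 = φ k.1
  let e : ι ≃ {k // P k} :=
    { toFun := fun i => ⟨(i, φ i), rfl⟩
      invFun := fun k => k.1.1
      left_inv := fun _ => rfl
      right_inv := fun ⟨⟨i, l⟩, h⟩ => by
        have : l = φ i := h
        subst this; rfl }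
  have hmp := (measurePreserving_piEquivPiSubtypeProd (α := fun _ : ι × Fin q => E)
    (fun _ => stdGaussian E) P).symm
  have hre := (measurePreserving_piCongrLeft (α := fun _ : {k // P k} => E)
    (fun _ => stdGaussian E) e).symm
  have hmG := (isClosed_good (E := E) φ η δ).measurableSet
  have hmF := (isClosed_frame (E := E) (fun i j : ι => if i = j then (1 : ℝ) else 0) η r ζ).measurableSet
  rw [← hmp.measureReal_preimage hmG.nullMeasurableSet,
    ← hre.measureReal_preimage hmF.nullMeasurableSet]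
  apply prod_ge _ _ (hmp.measurable hmG) (hre.measurable hmF) (pow_nonneg (by linarith) _)
  rintro x ⟨u, hu, h1, h2, h3⟩
  have hsub : Set.univ.pi (fun _ => Ok u δ) ⊆ Prod.mk x ⁻¹'
      ((MeasurableEquiv.piEquivPiSubtypeProd (fun _ : ι × Fin q => E) P).symm ⁻¹' Good φ η δ) := by
    intro w hw
    refine ⟨u, hu, fun i j => ?_, fun k hk => ?_⟩
    · refine Eq.trans ?_ (h1 i j)
      congr 1
      simp [MeasurableEquiv.piEquivPiSubtypeProd, Equiv.piEquivPiSubtypeProd, P, e,
        MeasurableEquiv.piCongrLeft]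
    · have := hw ⟨k, hk⟩ trivial
      simpa [MeasurableEquiv.piEquivPiSubtypeProd, Equiv.piEquivPiSubtypeProd, P, hk] using this
  refine le_trans ?_ (measureReal_mono hsub)
  rw [measureReal_def, Measure.pi_pi, ENNReal.toReal_prod]
  have h4 : 1 - p ≤ (stdGaussian E).real (Ok u δ) := by
    have := hp u (fun j => mem_closedBall_zero_iff.1 (hu j trivial)) h2 h3
    rw [probReal_compl_eq_one_sub (measurableSet_ok u δ)] at this
    linarith
  calc (1 - p) ^ (Fintype.card ι * q) ≤ (1 - p) ^ Fintype.card {k // ¬ P k} := by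
        apply pow_le_pow_of_le_one (by linarith) (by linarith)
        exact (Fintype.card_subtype_le (fun k => ¬ P k)).trans (by simp)
    _ = ∏ _k : {k // ¬ P k}, (1 - p) := by simp
    _ ≤ _ := Finset.prod_le_prod (fun _ _ => by linarith) fun _ _ => h4

open Classical in
lemma exists_pool {ι : Type*} [Fintype ι] [DecidableEq ι] (q : ℕ) {η δ c : ℝ}
    (h : ∀ φ : ι → Fin q, c ≤ (Measure.pi fun _ : ι × Fin q => stdGaussian E).real (Good φ η δ)) :
    ∃ ω : ι × Fin q → E, (q : ℝ) ^ Fintype.card ι * c ≤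
      (Finset.univ.filter fun φ : ι → Fin q => ω ∈ Good φ η δ).card := by
  set μ := Measure.pi fun _ : ι × Fin q => stdGaussian E
  have hm : ∀ φ : ι → Fin q, MeasurableSet (Good (E := E) φ η δ) :=
    fun φ => (isClosed_good φ η δ).measurableSet
  have hi : ∀ φ : ι → Fin q, Integrable ((Good (E := E) φ η δ).indicator (1 : (ι × Fin q → E) → ℝ)) μ :=
    fun φ => (integrable_const (1 : ℝ)).indicator (hm φ)
  obtain ⟨ω, hω⟩ := exists_integral_le (μ := μ)
    (f := fun ω => ∑ φ : ι → Fin q, (Good (E := E) φ η δ).indicator (1 : (ι × Fin q → E) → ℝ) ω)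
    (integrable_finsetSum _ fun φ _ => hi φ)
  refine ⟨ω, le_trans ?_ (hω.trans (le_of_eq ?_))⟩
  · rw [integral_finsetSum _ fun φ _ => hi φ]
    simp only [integral_indicator_one (hm _)]
    calc (q : ℝ) ^ Fintype.card ι * c = ∑ _φ : ι → Fin q, c := by simp
      _ ≤ _ := Finset.sum_le_sum fun φ _ => h φ
  · simp [Set.indicator_apply]

end Pool.Agent.MP_026d7f_an.H77

end

-- part MP_026d7f_an.H77.Space
section

namespace Pool.Agent.MP_026d7f_an.H77

open Set Module
open scoped RealInnerProductSpace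

section Abstract

variable {X : Type*} [NormedAddCommGroup X] [NormedSpace ℝ X]
  {ι κ : Type*} [Fintype ι] [DecidableEq ι] {n : ℕ}

lemma projConst_eq (hn : 3 ≤ n) (hι : Fintype.card ι = n) {g : κ → X →L[ℝ] ℝ}
    (hle : ∀ k x, |g k x| ≤ ‖x‖) (hge : ∀ x C, 0 ≤ C → (∀ k, |g k x| ≤ C) → ‖x‖ ≤ C)
    {f : ι → κ} {U : ι → X} (hU : ∀ i j, g (f i) (U j) = if j = i then 1 else 0)
    (hcov : ∀ k, (∃ i, k = f i) ∨
      (|g k (∑ j, U j)| ≤ 1 - 2 / n ∧ ∀ j, |g k (∑ j, U j - (2 : ℝ) • U j)| ≤ 1))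
    (Y : Submodule ℝ X) (hY : ∀ x, x ∈ Y ↔ ∑ i, g (f i) x = 0) :
    projConst Y = 2 - 2 / n := by
  have hn' : (3 : ℝ) ≤ n := by exact_mod_cast hn
  have hn0 : (0 : ℝ) < n := by linarith
  set y := ∑ j, U j
  set F : X →L[ℝ] ℝ := ∑ i, g (f i)
  have hF : ∀ x, F x = ∑ i, g (f i) x := fun x => by simp [F]
  have hgy : ∀ i, g (f i) y = 1 := fun i => by simp [y, hU]
  have hFy : F y = n := by simp [hF, hgy, hι]
  have hFU : ∀ j, F (U j) = 1 := fun j => by simp [hF, hU]
  have hYF : ∀ x, x ∈ Y ↔ F x = 0 := fun x => by rw [hY, hF]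
  have hv : F ((1 / n : ℝ) • y) = 1 := by rw [map_smul, hFy, smul_eq_mul]; field_simp
  have h2n : 2 / (n : ℝ) ≤ 1 := by rw [div_le_one hn0]; linarith
  apply le_antisymm
  · apply projConst_le F Y hYF _ hv (by linarith)
    intro x hx
    have hgx : ∀ k, |g k x| ≤ 1 := fun k => (hle k x).trans hx
    apply hge _ _ (by linarith)
    intro k
    simp only [map_sub, map_smul, smul_eq_mul]
    rcases hcov k with ⟨i, rfl⟩ | ⟨h, -⟩
    · rw [hgy, hF, ← Finset.add_sum_erase _ _ (Finset.mem_univ i)]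
      have h1 : |∑ j ∈ Finset.univ.erase i, g (f j) x| ≤ n - 1 := by
        refine (Finset.abs_sum_le_sum_abs _ _).trans ((Finset.sum_le_sum fun j _ => hgx (f j)).trans ?_)
        simp only [Finset.sum_const, nsmul_eq_mul, mul_one]
        rw [Finset.card_erase_of_mem (Finset.mem_univ i), Finset.card_univ, hι,
          Nat.cast_sub (by omega)]
        simp
      have h2 := hgx (f i)
      set a := g (f i) x
      set b := ∑ j ∈ Finset.univ.erase i, g (f j) x
      have h3 : a - (a + b) * (1 / n * 1) = ((n - 1) * a - b) / n := by field_simp; ring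
      have h4 : 2 - 2 / (n : ℝ) = (2 * n - 2) / n := by field_simp
      rw [h3, h4, abs_div, abs_of_pos hn0]
      apply div_le_div_of_nonneg_right _ hn0.le
      rw [abs_le] at h1 h2 ⊢
      constructor <;> nlinarith
    · have h1 : |F x| ≤ n := by
        rw [hF]
        refine (Finset.abs_sum_le_sum_abs _ _).trans ((Finset.sum_le_sum fun j _ => hgx (f j)).trans ?_)
        simp [hι]
      have h2 : |F x * (1 / n * g k y)| ≤ n * (1 / n * (1 - 2 / n)) := by
        rw [abs_mul, abs_mul, abs_of_pos (by positivity : (0 : ℝ) < 1 / n)]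
        exact mul_le_mul h1 (mul_le_mul_of_nonneg_left h (by positivity)) (by positivity) hn0.le
      have h3 : (n : ℝ) * (1 / n * (1 - 2 / n)) = 1 - 2 / n := by field_simp
      have h4 := abs_sub (g k x) (F x * (1 / n * g k y))
      linarith [hgx k]
  · let Q : X →L[ℝ] X := ContinuousLinearMap.id ℝ X - F.smulRight ((1 / n : ℝ) • y)
    have hmem : ∀ (v : X), F v = 1 → ∀ x, x - F x • v ∈ Y := by
      intro v hv x
      rw [hYF, map_sub, map_smul, hv]; simp
    apply le_csInf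
    · refine ⟨_, Q.codRestrict Y (hmem _ hv), fun w => Subtype.ext ?_, rfl⟩
      change (w : X) - F w • _ = w
      rw [(hYF w).1 w.2]; simp
    · rintro r ⟨P, hP, rfl⟩
      have : Nonempty ι := Fintype.card_pos_iff.1 (by omega)
      obtain ⟨i₀⟩ := this
      set z : X := U i₀ - P (U i₀)
      have hPx : ∀ x, (P x : X) = x - F x • z := by
        intro x
        have h1 := hP ⟨_, hmem _ (hFU i₀) x⟩
        have h2 := congrArg Subtype.val h1
        simp only [map_sub, map_smul, AddSubgroupClass.coe_sub, SetLike.val_smul] at h2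
        simp only [z, smul_sub]
        rw [sub_eq_iff_eq_add] at h2
        rw [h2]; abel
      have hz : F z = 1 := by
        simp only [z, map_sub, hFU, (hYF _).1 (P (U i₀)).2, sub_zero]
      set x : ι → X := fun j => y - (2 : ℝ) • U j
      have hx : ∀ j, ‖x j‖ ≤ 1 := by
        intro j
        apply hge _ _ zero_le_one
        intro k
        rcases hcov k with ⟨i, rfl⟩ | ⟨-, h⟩
        · simp only [x, map_sub, map_smul, hgy, hU, smul_eq_mul]
          split_ifs <;> norm_num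
        · exact h j
      have h1 : ∀ i, 1 + (n - 2) * g (f i) z ≤ ‖P‖ := by
        intro i
        have h2 : g (f i) (P (x i)) = -(1 + (n - 2) * g (f i) z) := by
          rw [hPx]
          simp only [x, map_sub, map_smul, hgy, hU, hFy, hFU, smul_eq_mul, if_true]
          ring
        have h3 := hle (f i) (P (x i))
        rw [h2, abs_neg] at h3
        have h4 : ‖(P (x i) : X)‖ ≤ ‖P‖ := by
          calc ‖(P (x i) : X)‖ = ‖P (x i)‖ := rfl
            _ ≤ ‖P‖ * ‖x i‖ := P.le_opNorm _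
            _ ≤ ‖P‖ := mul_le_of_le_one_right P.opNorm_nonneg (hx i)
        linarith [le_abs_self (1 + (n - 2) * g (f i) z)]
      have h5 := Finset.sum_le_sum fun i (_ : i ∈ Finset.univ) => h1 i
      rw [Finset.sum_add_distrib, ← Finset.mul_sum, ← hF, hz] at h5
      simp only [Finset.sum_const, Finset.card_univ, hι, nsmul_eq_mul, mul_one] at h5
      have h4 : 2 - 2 / (n : ℝ) = (2 * n - 2) / n := by field_simp
      rw [h4, div_le_iff₀ hn0]
      linarith

omit [DecidableEq ι] in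
lemma scale_lt (hn : 3 ≤ n) (hι : Fintype.card ι = n) {g : κ → X →L[ℝ] ℝ}
    {f f' : ι → κ} {y : X} (hy : ∀ i, g (f i) y = 1)
    (hcov : ∀ i, f' i = f i ∨ |g (f' i) y| ≤ 1 - 2 / n) (hne : ∃ i, |g (f' i) y| ≤ 1 - 2 / n)
    (h : ∀ x, ∑ i, g (f i) x = 0 → ∑ i, g (f' i) x = 0) :
    ∃ c : ℝ, |c| < 1 ∧ ∀ x, ∑ i, g (f' i) x = c * ∑ i, g (f i) x := by
  have hn' : (3 : ℝ) ≤ n := by exact_mod_cast hn
  have hn0 : (0 : ℝ) < n := by linarith
  have h2n : 0 < 2 / (n : ℝ) := by positivity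
  refine ⟨(∑ i, g (f' i) y) / n, ?_, fun x => ?_⟩
  · rw [abs_div, abs_of_pos hn0, div_lt_one hn0]
    refine (Finset.abs_sum_le_sum_abs _ _).trans_lt ?_
    calc ∑ i, |g (f' i) y| < ∑ _i : ι, (1 : ℝ) := by
          apply Finset.sum_lt_sum
          · intro i _
            rcases hcov i with h1 | h1
            · rw [h1, hy]; simp
            · linarith
          · obtain ⟨i, hi⟩ := hne
            exact ⟨i, Finset.mem_univ _, by linarith⟩
      _ = n := by simp [hι]
  · have := h (x - ((∑ i, g (f i) x) / n) • y) (by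
      simp only [map_sub, map_smul, hy, smul_eq_mul, Finset.sum_sub_distrib, Finset.sum_const,
        Finset.card_univ, hι, nsmul_eq_mul]
      field_simp; ring)
    simp only [map_sub, map_smul, smul_eq_mul, Finset.sum_sub_distrib, ← Finset.mul_sum] at this
    rw [sub_eq_zero.1 this]; ring

end Abstract

theorem exists_space {E : Type} [NormedAddCommGroup E] [InnerProductSpace ℝ E]
    [FiniteDimensional ℝ E] {ι : Type} [Fintype ι] [DecidableEq ι] {n q : ℕ} (hn : 3 ≤ n)
    (hι : Fintype.card ι = n) (hE : finrank ℝ E = n) {η : ℝ} (ω : ι × Fin q → E)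
    (S : Finset (ι → Fin q)) (hS : ∀ φ ∈ S, ω ∈ Good φ η (2 / n)) (hne : S.Nonempty) :
    ∃ (X : Type) (_ : NormedAddCommGroup X) (_ : NormedSpace ℝ X) (_ : FiniteDimensional ℝ X),
      finrank ℝ X = n ∧ ∃ T : Finset (Submodule ℝ X),
        (∀ Y ∈ T, finrank ℝ Y = n - 1 ∧ projConst Y = 2 - 2 / (n : ℝ)) ∧ T.card = S.card := by
  classical
  have hn' : (3 : ℝ) ≤ n := by exact_mod_cast hn
  let Φ : E →ₗ[ℝ] (ι × Fin q → ℝ) := LinearMap.pi fun k => (innerSL ℝ (ω k)).toLinearMap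
  have hΦ : ∀ x k, Φ x k = ⟪ω k, x⟫ := fun _ _ => rfl
  choose! u _ hu hok using hS
  have hinj : Function.Injective Φ := by
    obtain ⟨φ, hφ⟩ := hne
    let Ψ : E →ₗ[ℝ] (ι → ℝ) := LinearMap.pi fun i => (innerSL ℝ (ω (i, φ i))).toLinearMap
    have hsurj : Function.Surjective Ψ := by
      intro w
      refine ⟨∑ j, w j • u φ j, ?_⟩
      ext i
      simp [Ψ, hu φ hφ]
    have hΨ : Function.Injective Ψ :=
      (LinearMap.injective_iff_surjective_of_finrank_eq_finrank (by simp [hE, hι])).2 hsurj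
    intro a b hab
    apply hΨ
    ext i
    exact congrFun hab (i, φ i)
  let X := LinearMap.range Φ
  have hX : finrank ℝ X = n := by rw [LinearMap.finrank_range_of_inj hinj, hE]
  let g : ι × Fin q → X →L[ℝ] ℝ := fun k => (ContinuousLinearMap.proj k).comp X.subtypeL
  have hg : ∀ k (x : X), g k x = x.1 k := fun _ _ => rfl
  let U : (ι → Fin q) → ι → X := fun φ j => ⟨Φ (u φ j), LinearMap.mem_range_self _ _⟩
  have hgU : ∀ φ k j, g k (U φ j) = ⟪ω k, u φ j⟫ := fun _ _ _ => rfl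
  have hgy : ∀ φ k, g k (∑ j, U φ j) = ⟪∑ j, u φ j, ω k⟫ := fun φ k => by
    rw [map_sum, real_inner_comm, inner_sum]; rfl
  have hgx : ∀ φ k j, g k (∑ j, U φ j - (2 : ℝ) • U φ j) = ⟪∑ j, u φ j - (2 : ℝ) • u φ j, ω k⟫ :=
    fun φ k j => by
      rw [map_sub, map_smul, hgy, hgU, inner_sub_left, real_inner_smul_left, real_inner_comm (ω k),
        real_inner_comm (ω k)]; rfl
  have hle : ∀ k (x : X), |g k x| ≤ ‖x‖ := fun k x => norm_le_pi_norm x.1 k
  have hge : ∀ (x : X) C, 0 ≤ C → (∀ k, |g k x| ≤ C) → ‖x‖ ≤ C := fun x C hC h =>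
    (pi_norm_le_iff_of_nonneg hC).2 h
  let F : (ι → Fin q) → X →ₗ[ℝ] ℝ := fun φ => ∑ i, (g (i, φ i)).toLinearMap
  have hF : ∀ φ x, x ∈ LinearMap.ker (F φ) ↔ ∑ i, g (i, φ i) x = 0 := fun φ x => by
    simp [F, LinearMap.mem_ker]
  have hy1 : ∀ φ ∈ S, ∀ i, g (i, φ i) (∑ j, U φ j) = 1 := fun φ hφ i => by
    simp [map_sum, hgU, hu φ hφ]
  refine ⟨X, inferInstance, inferInstance, inferInstance, hX,
    S.image fun φ => LinearMap.ker (F φ), ?_, ?_⟩
  · intro Y hY
    obtain ⟨φ, hφ, rfl⟩ := Finset.mem_image.1 hY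
    constructor
    · have h1 := LinearMap.finrank_range_add_finrank_ker (F φ)
      have h2 : LinearMap.range (F φ) = ⊤ := by
        rw [LinearMap.range_eq_top]
        intro t
        refine ⟨(t / n) • ∑ j, U φ j, ?_⟩
        have : F φ (∑ j, U φ j) = n := by
          simp only [F, LinearMap.coe_sum, Finset.sum_apply, ContinuousLinearMap.coe_coe, hy1 φ hφ]
          simp [hι]
        rw [map_smul, this, smul_eq_mul]; field_simp
      rw [h2, finrank_top, finrank_self, hX] at h1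
      omega
    · apply projConst_eq hn hι hle hge (f := fun i => (i, φ i)) (U := U φ)
        (fun i j => by rw [hgU, hu φ hφ]) _ _ (hF φ)
      rintro ⟨i, l⟩
      by_cases hl : l = φ i
      · exact Or.inl ⟨i, by rw [hl]⟩
      · right
        have := hok φ hφ (i, l) hl
        exact ⟨by rw [hgy]; exact this.1, fun j => by rw [hgx]; exact this.2 j⟩
  · apply Finset.card_image_of_injOn
    intro φ hφ ψ hψ hker
    by_contra hne
    have key : ∀ φ ∈ S, ∀ ψ ∈ S, φ ≠ ψ → LinearMap.ker (F φ) = LinearMap.ker (F ψ) →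
        ∃ c : ℝ, |c| < 1 ∧ ∀ x, ∑ i, g (i, ψ i) x = c * ∑ i, g (i, φ i) x := by
      intro φ hφ ψ _ hne hker
      apply scale_lt hn hι (f := fun i => (i, φ i)) (f' := fun i => (i, ψ i)) (hy1 φ hφ)
      · intro i
        by_cases hl : ψ i = φ i
        · exact Or.inl (by rw [hl])
        · right; rw [hgy]; exact (hok φ hφ (i, ψ i) hl).1
      · obtain ⟨i, hi⟩ := Function.ne_iff.1 hne
        exact ⟨i, by rw [hgy]; exact (hok φ hφ (i, ψ i) hi.symm).1⟩
      · intro x hx
        rw [← hF, ← hker, hF]; exact hx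
    obtain ⟨c, hc, h1⟩ := key φ hφ ψ hψ hne hker
    obtain ⟨c', hc', h2⟩ := key ψ hψ φ hφ (Ne.symm hne) hker.symm
    have h3 := h2 (∑ j, U φ j)
    rw [h1] at h3
    simp only [hy1 φ hφ, Finset.sum_const, Finset.card_univ, hι, nsmul_eq_mul, mul_one] at h3
    have h4 : c' * c = 1 := by
      have : (n : ℝ) * (c' * c - 1) = 0 := by linarith
      rcases mul_eq_zero.1 this with h | h <;> linarith
    have h5 : |c'| * |c| < 1 := mul_lt_one_of_nonneg_of_lt_one_left (abs_nonneg _) hc' hc.le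
    rw [← abs_mul, h4] at h5
    simp at h5

end Pool.Agent.MP_026d7f_an.H77

end
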