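import Mathlib
import Pool.Agent.MP_026d7f_an.Mg.Packing
import Pool.Agent.MP_026d7f_an.Mg.H77_Space

-- part MP_026d7f_an.H2.Det
section

/-!
Matrices of order 4 and 5 with entries in `[-1, 1]`: the largest determinants are 16 and 48 and
they are attained only by sign matrices.
-/

namespace Pool.Agent.MP_026d7f_an.H2

open Matrix Finset

/-- the determinant bound `D` holds on the cube and forces sign entries -/
def Rigid (n : ℕ) (D : ℝ) : Prop :=
  ∀ A : Matrix (Fin n) (Fin n) ℝ, (∀ i j, |A i j| ≤ 1) →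
    |A.det| ≤ D ∧ (|A.det| = D → ∀ i j, |A i j| = 1)

theorem row_sign {n : ℕ} (A : Matrix (Fin n) (Fin n) ℝ) (i : Fin n) (h : ∀ j, |A i j| ≤ 1) :
    ∃ r : Fin n → ℝ, (∀ j, r j = 1 ∨ r j = -1) ∧ |A.det| ≤ |(A.updateRow i r).det| := by
  obtain ⟨c, hc⟩ : ∃ c : Fin n → ℝ, ∀ r, (A.updateRow i r).det = ∑ j, r j * c j :=
    ⟨_, fun r => by
      rw [← cramer_transpose_apply]
      exact LinearMap.pi_apply_eq_sum_univ ((LinearMap.proj i).comp (cramer Aᵀ)) r⟩
  refine ⟨fun j => if 0 ≤ c j then 1 else -1, fun j => by dsimp only; split_ifs <;> simp, ?_⟩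
  have h1 : A.det = ∑ j, A i j * c j := by rw [← hc, updateRow_eq_self]
  rw [h1, hc]
  refine (abs_sum_le_sum_abs _ _).trans (le_trans (sum_le_sum fun j _ => ?_) (le_abs_self _))
  rw [abs_mul]
  refine (mul_le_of_le_one_left (abs_nonneg _) (h j)).trans ?_
  split_ifs with h0
  · rw [abs_of_nonneg h0, one_mul]
  · rw [abs_of_neg (not_le.1 h0), neg_one_mul]

theorem rows_sign {n : ℕ} (A : Matrix (Fin n) (Fin n) ℝ) (h : ∀ i j, |A i j| ≤ 1)
    (s : Finset (Fin n)) : ∃ B : Matrix (Fin n) (Fin n) ℝ, (∀ i ∉ s, B i = A i) ∧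
      (∀ i ∈ s, ∀ j, B i j = 1 ∨ B i j = -1) ∧ |A.det| ≤ |B.det| := by
  induction s using Finset.induction_on with
  | empty => exact ⟨A, fun _ _ => rfl, by simp, le_rfl⟩
  | insert a s ha ih =>
    obtain ⟨B, h1, h2, h3⟩ := ih
    obtain ⟨r, h4, h5⟩ := row_sign B a (by rw [h1 a ha]; exact h a)
    refine ⟨B.updateRow a r, fun i hi => ?_, fun i hi j => ?_, h3.trans h5⟩
    · rw [mem_insert, not_or] at hi
      rw [updateRow_ne hi.1, h1 i hi.2]
    · by_cases e : i = a
      · rw [e, updateRow_self]; exact h4 j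
      · rw [updateRow_ne e]; exact h2 i ((mem_insert.1 hi).resolve_left e) j

theorem rigid_of_base {m : ℕ} {D : ℝ}
    (base : ∀ A : Matrix (Fin (m + 2)) (Fin (m + 2)) ℝ, (∀ j, A 1 j = 1) →
      (∀ i, i ≠ 0 → A i 0 = 1) → (∀ i, i ≠ 0 → ∀ j, A i j = 1 ∨ A i j = -1) →
      (∀ j, |A 0 j| ≤ 1) → |A.det| ≤ D ∧ (|A.det| = D → ∀ j, |A 0 j| = 1)) :
    Rigid (m + 2) D := by
  have step : ∀ A : Matrix (Fin (m + 2)) (Fin (m + 2)) ℝ, (∀ i j, |A i j| ≤ 1) →
      |A.det| ≤ D ∧ (|A.det| = D → ∀ j, |A 0 j| = 1) := by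
    intro A h
    obtain ⟨B, h1, h2, h3⟩ := rows_sign A h (univ.erase 0)
    have h2' : ∀ i, i ≠ 0 → ∀ j, B i j = 1 ∨ B i j = -1 := fun i hi => h2 i (by simp [hi])
    have h0 : B 0 = A 0 := h1 0 (by simp)
    have one0 : (1 : Fin (m + 2)) ≠ 0 := by simp
    have ab : ∀ i, i ≠ 0 → ∀ j, |B i j| = 1 := fun i hi j => by
      rcases h2' i hi j with e | e <;> simp [e]
    let ρ : Fin (m + 2) → ℝ := fun i => if i = 0 then 1 else B i 0 * B 1 0
    have hρ : ∀ i, |ρ i| = 1 := fun i => by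
      simp only [ρ]
      split_ifs with e
      · simp
      · rw [abs_mul, ab i e, ab 1 one0, one_mul]
    have hd : |(of fun i j => ρ i * (of fun i j => B 1 j * B i j) i j).det| = |B.det| := by
      rw [det_mul_column, det_mul_row, abs_mul, abs_mul, abs_prod, abs_prod]
      simp [hρ, ab 1 one0]
    have he : ∀ j, |(of fun i j => ρ i * (of fun i j => B 1 j * B i j) i j) 0 j| = |A 0 j| := by
      intro j
      simp only [of_apply, abs_mul, hρ, ab 1 one0, one_mul, h0]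
    obtain ⟨h4, h5⟩ := base (of fun i j => ρ i * (of fun i j => B 1 j * B i j) i j)
      (fun j => by
        simp only [of_apply, ρ, if_neg one0]
        rcases h2' 1 one0 0 with e | e <;> rcases h2' 1 one0 j with e' | e' <;> simp [e, e'])
      (fun i hi => by
        simp only [of_apply, ρ, if_neg hi]
        rcases h2' 1 one0 0 with e | e <;> rcases h2' i hi 0 with e' | e' <;> simp [e, e'])
      (fun i hi j => by
        have : |ρ i * (B 1 j * B i j)| = 1 := by
          rw [abs_mul, abs_mul, hρ, ab 1 one0, ab i hi]; simp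
        exact (abs_eq zero_le_one).1 this)
      (fun j => by rw [he]; exact h 0 j)
    rw [hd] at h4 h5
    exact ⟨h3.trans h4, fun e j => by rw [← he]; exact h5 (le_antisymm h4 (e ▸ h3)) j⟩
  intro A h
  refine ⟨(step A h).1, fun e i j => ?_⟩
  have h1 := (step (A.submatrix (Equiv.swap 0 i) id) fun i j => h _ _).2 (by
    rw [det_permute, abs_mul, e]
    rcases Int.units_eq_one_or (Equiv.Perm.sign (Equiv.swap 0 i)) with s | s <;> simp [s]) j
  simpa using h1

theorem lin_bound {n : ℕ} (c : Fin n → ℤ) (K : ℤ) (h1 : ∑ j, |c j| ≤ K)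
    (h2 : ∑ j, |c j| = K → ∀ j, c j ≠ 0) (r : Fin n → ℝ) (hr : ∀ j, |r j| ≤ 1) :
    |∑ j, r j * c j| ≤ K ∧ (|∑ j, r j * c j| = K → ∀ j, |r j| = 1) := by
  have a1 : ∀ j ∈ (univ : Finset (Fin n)), |r j * (c j : ℝ)| ≤ |(c j : ℝ)| := fun j _ => by
    rw [abs_mul]
    exact mul_le_of_le_one_left (abs_nonneg _) (hr j)
  have a2 := abs_sum_le_sum_abs (fun j => r j * (c j : ℝ)) univ
  have a3 := sum_le_sum a1
  have a4 : ∑ j, |(c j : ℝ)| ≤ K := by exact_mod_cast h1
  refine ⟨by linarith, fun e j => ?_⟩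
  have a5 : ∑ j, |(c j : ℝ)| = K := by linarith
  have a6 := (sum_eq_sum_iff_of_le a1).1 (by linarith) j (mem_univ j)
  have a7 : |(c j : ℝ)| ≠ 0 := by
    rw [abs_ne_zero]
    exact_mod_cast h2 (by exact_mod_cast a5) j
  rw [abs_mul] at a6
  exact (mul_eq_right₀ a7).1 a6

/-- `0` or `1` -/
def bz (b : Bool) : ℤ := cond b 1 0

theorem exists_bz {x : ℝ} (h : x = 1 ∨ x = -1) : ∃ b, x = 1 - 2 * (bz b : ℝ) := by
  rcases h with h | h
  · exact ⟨false, by simp [h, bz]⟩
  · exact ⟨true, by simp [h, bz]; norm_num⟩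

/-- cofactors in order 4 -/
def cof4 (a b c d e f : ℤ) : Fin 4 → ℤ :=
  ![-((b * f - c * e) - (a * f - c * d) + (a * e - b * d)),
    b * f - c * e, -(a * f - c * d), a * e - b * d]

theorem check4 : ∀ a b c d e f : Bool,
    ∑ j, |cof4 (bz a) (bz b) (bz c) (bz d) (bz e) (bz f) j| ≤ 4 ∧
    (∑ j, |cof4 (bz a) (bz b) (bz c) (bz d) (bz e) (bz f) j| = 4 →
      ∀ j, cof4 (bz a) (bz b) (bz c) (bz d) (bz e) (bz f) j ≠ 0) := by
  decide +kernel

theorem rigid4 : Rigid 4 16 := by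
  refine rigid_of_base (m := 2) fun A h1 h2 h3 h4 => ?_
  obtain ⟨a, ha⟩ := exists_bz (h3 2 (by decide) 1)
  obtain ⟨b, hb⟩ := exists_bz (h3 2 (by decide) 2)
  obtain ⟨c, hc⟩ := exists_bz (h3 2 (by decide) 3)
  obtain ⟨d, hd⟩ := exists_bz (h3 3 (by decide) 1)
  obtain ⟨e, he⟩ := exists_bz (h3 3 (by decide) 2)
  obtain ⟨f, hf⟩ := exists_bz (h3 3 (by decide) 3)
  have hA : A = !![A 0 0, A 0 1, A 0 2, A 0 3; 1, 1, 1, 1;
      1, 1 - 2 * (bz a : ℝ), 1 - 2 * (bz b : ℝ), 1 - 2 * (bz c : ℝ);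
      1, 1 - 2 * (bz d : ℝ), 1 - 2 * (bz e : ℝ), 1 - 2 * (bz f : ℝ)] := by
    ext i j
    fin_cases i <;> fin_cases j <;>
      first | rfl | exact h1 _ | exact h2 _ (by decide) | assumption
  have hdet : A.det = -4 * ∑ j, A 0 j *
      (cof4 (bz a) (bz b) (bz c) (bz d) (bz e) (bz f) j : ℝ) := by
    conv_lhs => rw [hA]
    simp [det_succ_row_zero, Fin.sum_univ_succ, cof4, Fin.succAbove]
    ring
  obtain ⟨b1, b2⟩ := lin_bound _ 4 (check4 a b c d e f).1 (check4 a b c d e f).2 (A 0) h4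
  rw [hdet, abs_mul]
  norm_num at b1 b2 ⊢
  exact ⟨by linarith, fun e => b2 (by linarith)⟩

/-- determinant of order 3 -/
def d3 (a b c d e f g h i : ℤ) : ℤ := a * (e * i - f * h) - b * (d * i - f * g) + c * (d * h - e * g)

/-- the check on the four minors -/
def ok5 (p q r s : ℤ) : Prop :=
  |p + q + r + s| + |p| + |q| + |r| + |s| ≤ 6 ∧ (|p + q + r + s| + |p| + |q| + |r| + |s| = 6 →
    p + q + r + s ≠ 0 ∧ p ≠ 0 ∧ q ≠ 0 ∧ r ≠ 0 ∧ s ≠ 0)

instance (p q r s : ℤ) : Decidable (ok5 p q r s) := by unfold ok5; infer_instance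

theorem check5 : ∀ a b c d e f g h i j k l : Bool,
    ok5 (d3 (bz b) (bz c) (bz d) (bz f) (bz g) (bz h) (bz j) (bz k) (bz l))
      (-d3 (bz a) (bz c) (bz d) (bz e) (bz g) (bz h) (bz i) (bz k) (bz l))
      (d3 (bz a) (bz b) (bz d) (bz e) (bz f) (bz h) (bz i) (bz j) (bz l))
      (-d3 (bz a) (bz b) (bz c) (bz e) (bz f) (bz g) (bz i) (bz j) (bz k)) := by
  decide +kernel

theorem det5 (r : Fin 5 → ℝ) (a b c d e f g h i j k l : ℤ) :
    Matrix.det !![r 0, r 1, r 2, r 3, r 4; 1, 1, 1, 1, 1;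
      1, 1 - 2 * (a : ℝ), 1 - 2 * (b : ℝ), 1 - 2 * (c : ℝ), 1 - 2 * (d : ℝ);
      1, 1 - 2 * (e : ℝ), 1 - 2 * (f : ℝ), 1 - 2 * (g : ℝ), 1 - 2 * (h : ℝ);
      1, 1 - 2 * (i : ℝ), 1 - 2 * (j : ℝ), 1 - 2 * (k : ℝ), 1 - 2 * (l : ℝ)] =
    8 * ((r 1 - r 0) * d3 b c d f g h j k l - (r 2 - r 0) * d3 a c d e g h i k l +
      (r 3 - r 0) * d3 a b d e f h i j l - (r 4 - r 0) * d3 a b c e f g i j k) := by
  simp [det_succ_row_zero, Fin.sum_univ_succ, d3, Fin.succAbove]
  ring

theorem rigid5 : Rigid 5 48 := by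
  refine rigid_of_base (m := 3) fun A h1 h2 h3 h4 => ?_
  obtain ⟨a, ha⟩ := exists_bz (h3 2 (by decide) 1)
  obtain ⟨b, hb⟩ := exists_bz (h3 2 (by decide) 2)
  obtain ⟨c, hc⟩ := exists_bz (h3 2 (by decide) 3)
  obtain ⟨d, hd⟩ := exists_bz (h3 2 (by decide) 4)
  obtain ⟨e, he⟩ := exists_bz (h3 3 (by decide) 1)
  obtain ⟨f, hf⟩ := exists_bz (h3 3 (by decide) 2)
  obtain ⟨g, hg⟩ := exists_bz (h3 3 (by decide) 3)
  obtain ⟨h, hh⟩ := exists_bz (h3 3 (by decide) 4)
  obtain ⟨i, hi⟩ := exists_bz (h3 4 (by decide) 1)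
  obtain ⟨j, hj⟩ := exists_bz (h3 4 (by decide) 2)
  obtain ⟨k, hk⟩ := exists_bz (h3 4 (by decide) 3)
  obtain ⟨l, hl⟩ := exists_bz (h3 4 (by decide) 4)
  have hA : A = !![A 0 0, A 0 1, A 0 2, A 0 3, A 0 4; 1, 1, 1, 1, 1;
      1, 1 - 2 * (bz a : ℝ), 1 - 2 * (bz b : ℝ), 1 - 2 * (bz c : ℝ), 1 - 2 * (bz d : ℝ);
      1, 1 - 2 * (bz e : ℝ), 1 - 2 * (bz f : ℝ), 1 - 2 * (bz g : ℝ), 1 - 2 * (bz h : ℝ);
      1, 1 - 2 * (bz i : ℝ), 1 - 2 * (bz j : ℝ), 1 - 2 * (bz k : ℝ), 1 - 2 * (bz l : ℝ)] := by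
    ext i j
    fin_cases i <;> fin_cases j <;>
      first | rfl | exact h1 _ | exact h2 _ (by decide) | assumption
  have hdet := (congrArg det hA).trans (det5 (A 0) ..)
  have hck := check5 a b c d e f g h i j k l
  generalize d3 (bz b) (bz c) (bz d) (bz f) (bz g) (bz h) (bz j) (bz k) (bz l) = p at hdet hck
  generalize d3 (bz a) (bz c) (bz d) (bz e) (bz g) (bz h) (bz i) (bz k) (bz l) = q at hdet hck
  generalize d3 (bz a) (bz b) (bz d) (bz e) (bz f) (bz h) (bz i) (bz j) (bz l) = r at hdet hck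
  generalize d3 (bz a) (bz b) (bz c) (bz e) (bz f) (bz g) (bz i) (bz j) (bz k) = s at hdet hck
  have hs : ∑ t, |![-(p + -q + r + -s), p, -q, r, -s] t| =
      |p + -q + r + -s| + |p| + |-q| + |r| + |-s| := by
    simp only [Fin.sum_univ_five, cons_val_zero, cons_val_one, Matrix.cons_val, abs_neg]
  obtain ⟨b1, b2⟩ := lin_bound ![-(p + -q + r + -s), p, -q, r, -s] 6 (hs ▸ hck.1) (fun e t => by
    obtain ⟨c0, c1, c2, c3, c4⟩ := hck.2 (hs ▸ e)
    fin_cases t
    exacts [neg_ne_zero.2 c0, c1, c2, c3, c4]) (A 0) h4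
  have hd2 : A.det = 8 * ∑ t, A 0 t * (![-(p + -q + r + -s), p, -q, r, -s] t : ℤ) := by
    rw [hdet, Fin.sum_univ_five]
    simp only [cons_val_zero, cons_val_one, Matrix.cons_val]
    push_cast
    ring
  rw [hd2, abs_mul]
  norm_num only [Int.cast_ofNat, Nat.abs_ofNat] at b1 b2 ⊢
  exact ⟨by linarith, fun e => b2 (by linarith)⟩

end Pool.Agent.MP_026d7f_an.H2

end

-- part MP_026d7f_an.H2.Small
section

/-!
In dimensions 4 and 5 two configurations share their points or their functionals up to signs.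
-/

namespace Pool.Agent.MP_026d7f_an.H2

open Module Finset Matrix

/-- the pairing matrix -/
def Mx (n : ℕ) : Matrix (Fin n) (Fin n) ℝ := of fun i j => if i = j then -1 else 1

theorem rigid {n : ℕ} (hn : n = 4 ∨ n = 5) : Rigid n |(Mx n).det| ∧ (Mx n).det ≠ 0 := by
  rcases hn with rfl | rfl
  · have : (Mx 4).det = -16 := by
      simp [det_succ_row_zero, Fin.sum_univ_succ, Mx, Fin.succAbove]
      norm_num
    rw [this]
    exact ⟨by simpa using rigid4, by norm_num⟩
  · have : (Mx 5).det = 48 := by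
      simp [det_succ_row_zero, Fin.sum_univ_succ, Mx, Fin.succAbove]
      norm_num
    rw [this]
    exact ⟨by simpa using rigid5, by norm_num⟩

variable {X : Type*} [NormedAddCommGroup X] [NormedSpace ℝ X] [FiniteDimensional ℝ X] {n : ℕ}

theorem mat_id (hn : 3 ≤ n) (hX : finrank ℝ X = n)
    {y y' : Fin n → X} {h h' : Fin n → (X →L[ℝ] ℝ)} (H : IsConfig y h) (H' : IsConfig y' h') :
    Mx n = (of fun i k => h i (y' k)) * ((of fun k l => (1 / ((n : ℝ) - 2) - if k = l then 1 else 0) / 2) *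
      of fun l j => h' l (y j)) := by
  ext i j
  have h1 := congrArg (h i) (H'.repr hn hX (y j))
  rw [H.pair, map_sum] at h1
  rw [Mx, of_apply, h1, mul_apply]
  refine sum_congr rfl fun k _ => ?_
  simp only [map_smul, smul_eq_mul, mul_apply, of_apply, sub_div, sub_mul, sum_sub_distrib, ite_div,
    ite_mul, zero_div, zero_mul, sum_ite_eq, mem_univ, if_true, ← mul_sum]
  ring

theorem cross_sign (hn : n = 4 ∨ n = 5) (hX : finrank ℝ X = n)
    {y y' : Fin n → X} {h h' : Fin n → (X →L[ℝ] ℝ)} (H : IsConfig y h) (H' : IsConfig y' h')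
    (i k : Fin n) : h i (y' k) = 1 ∨ h i (y' k) = -1 := by
  have hn3 : 3 ≤ n := by omega
  obtain ⟨hR, h0⟩ := rigid hn
  have e1 := congrArg det (mat_id hn3 hX H H')
  have e2 := congrArg det (mat_id hn3 hX H H)
  have e3 : (of fun i k => h i (y k)) = Mx n := by
    ext i k; exact H.pair i k
  rw [det_mul, det_mul] at e1 e2
  rw [e3] at e2
  obtain ⟨a1, a2⟩ := hR (of fun i k => h i (y' k)) fun i k => abs_apply_le_one (H.nh i) (H'.ny k)
  obtain ⟨b1, -⟩ := hR (of fun l j => h' l (y j)) fun i k => abs_apply_le_one (H'.nh i) (H.ny k)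
  generalize det (of fun i k => h i (y' k)) = a at e1 a1 a2
  generalize det (of fun l j => h' l (y j)) = b at e1 b1
  generalize det (of fun k l : Fin n => (1 / ((n : ℝ) - 2) - if k = l then 1 else 0) / 2) = c at e1 e2
  generalize (Mx n).det = d at e1 e2 a1 a2 b1 h0
  have e4 : c * d = 1 := mul_left_cancel₀ h0 (by linarith)
  have e5 : a * b = d * d := by linear_combination (-d) * e1 - a * b * e4
  have e6 : |a| * |b| = |d| * |d| := by rw [← abs_mul, ← abs_mul, e5]
  have d0 : 0 < |d| := abs_pos.2 h0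
  have e7 : |a| = |d| := le_antisymm a1 (by nlinarith [abs_nonneg a, abs_nonneg b])
  exact (abs_eq zero_le_one).1 (a2 e7 i k)

theorem slack_card (a : Fin n → ℝ) (ha : ∀ k, a k = 1 ∨ a k = -1) (k : Fin n) :
    (1 - a k) / 2 = if k ∈ univ.filter fun k => a k = -1 then 1 else 0 := by
  rcases ha k with e | e
  · simp [e]; norm_num
  · simp [e]

theorem sign_of_card (a : Fin n → ℝ) (ha : ∀ k, a k = 1 ∨ a k = -1)
    (hc : #(univ.filter fun k => a k = -1) = 1 ∨ #(univ.filter fun k => a k = -1) + 1 = n) :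
    ∃ k, (∀ l, a l = if k = l then -1 else 1) ∨ ∀ l, a l = -if k = l then -1 else 1 := by
  rcases hc with hc | hc
  · obtain ⟨k, hk⟩ := card_eq_one.1 hc
    refine ⟨k, Or.inl fun l => ?_⟩
    have := Finset.ext_iff.1 hk l
    simp only [mem_filter, mem_univ, true_and, mem_singleton] at this
    split_ifs with e
    · exact this.2 e.symm
    · exact (ha l).resolve_right fun h => e (this.1 h).symm
  · have h1 := card_filter_add_card_filter_not (s := univ) fun k => a k = -1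
    rw [card_univ, Fintype.card_fin] at h1
    obtain ⟨k, hk⟩ := card_eq_one.1 (show #(univ.filter fun k => ¬ a k = -1) = 1 by omega)
    refine ⟨k, Or.inr fun l => ?_⟩
    have := Finset.ext_iff.1 hk l
    simp only [mem_filter, mem_univ, true_and, mem_singleton] at this
    split_ifs with e
    · rw [neg_neg]; exact (ha l).resolve_right (this.2 e.symm)
    · by_contra h; exact e (this.1 h).symm

theorem pair_sign (hn : n = 4 ∨ n = 5) (a b : Fin n → ℝ) (ha : ∀ k, a k = 1 ∨ a k = -1)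
    (hb : ∀ k, b k = 1 ∨ b k = -1) (p : Prop) [Decidable p]
    (h : ∑ k, (1 - a k) / 2 * ((1 - b k) / 2) = (if p then 1 else 0)
      + (∑ k, (1 - a k) / 2 - 1) * (∑ k, (1 - b k) / 2 - 1) / (n - 2)) :
    (∃ k, (∀ l, a l = if k = l then -1 else 1) ∨ ∀ l, a l = -if k = l then -1 else 1) ∨
    ∃ k, (∀ l, b l = if k = l then -1 else 1) ∨ ∀ l, b l = -if k = l then -1 else 1 := by
  refine Or.imp (sign_of_card a ha) (sign_of_card b hb) ?_
  simp only [slack_card a ha, slack_card b hb] at h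
  have hs := (card_filter_le univ fun k => a k = -1).trans_eq (card_fin n)
  have ht := (card_filter_le univ fun k => b k = -1).trans_eq (card_fin n)
  generalize (univ.filter fun k => a k = -1) = S at h hs ⊢
  generalize (univ.filter fun k => b k = -1) = T at h ht ⊢
  simp only [ite_zero_mul_ite_zero, mul_one, ← mem_inter, sum_boole, filter_univ_mem] at h
  generalize #S = s at h hs ⊢
  generalize #T = t at h ht ⊢
  generalize #(S ∩ T) = c at h
  obtain ⟨d, hd⟩ : ∃ d : ℤ, (if p then 1 else 0 : ℝ) = d := by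
    split_ifs
    exacts [⟨1, by simp⟩, ⟨0, by simp⟩]
  rw [hd] at h
  rcases hn with rfl | rfl
  · have h2 : 2 * ((c : ℤ) - d) = (s - 1) * (t - 1) := by
      have : 2 * ((c : ℝ) - d) = (s - 1) * (t - 1) := by rw [h]; norm_num; ring
      exact_mod_cast this
    interval_cases s <;> interval_cases t <;> omega
  · have h2 : 3 * ((c : ℤ) - d) = (s - 1) * (t - 1) := by
      have : 3 * ((c : ℝ) - d) = (s - 1) * (t - 1) := by rw [h]; norm_num; ring
      exact_mod_cast this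
    interval_cases s <;> interval_cases t <;> omega

/-- equal up to signs and order -/
def Sh {V : Type*} [AddCommGroup V] (u v : Fin n → V) : Prop := ∀ i, ∃ k, u i = v k ∨ u i = -v k

theorem Sh.trans {V : Type*} [AddCommGroup V] {u v w : Fin n → V} (h : Sh u v) (h' : Sh v w) :
    Sh u w := fun i => by
  obtain ⟨k, hk⟩ := h i
  obtain ⟨l, hl⟩ := h' k
  refine ⟨l, ?_⟩
  rcases hk with hk | hk <;> rcases hl with hl | hl <;> simp [hk, hl]

theorem Sh.symm {V : Type*} [AddCommGroup V] (hn : 3 ≤ n) {u v : Fin n → V} (φ : Fin n → V →+ ℝ)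
    (hφ : ∀ i j, φ i (u j) = if i = j then -1 else 1) (h : Sh u v) : Sh v u := by
  choose k hk using h
  have hinj : Function.Injective k := by
    intro i j e
    by_contra hij
    obtain ⟨l, -, hl⟩ := exists_mem_notMem_of_card_lt_card (s := {i, j}) (t := univ)
      (card_le_two.trans_lt (by rw [card_fin]; omega))
    simp only [mem_insert, mem_singleton, not_or] at hl
    have a1 := hφ i i
    have a2 := hφ i j
    have a3 := hφ l i
    have a4 := hφ l j
    rw [if_pos rfl] at a1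
    rw [if_neg hij] at a2
    rw [if_neg hl.1] at a3
    rw [if_neg hl.2] at a4
    rcases hk i with b1 | b1 <;> rcases hk j with b2 | b2 <;> rw [b1, e] at a1 a3 <;>
      rw [b2] at a2 a4 <;> (try simp only [map_neg] at a1 a2 a3 a4) <;> linarith
  intro l
  obtain ⟨i, rfl⟩ := (Finite.injective_iff_surjective.1 hinj) l
  exact ⟨i, (hk i).imp Eq.symm fun e => by rw [e, neg_neg]⟩

theorem ext_fun (hn : 3 ≤ n) (hX : finrank ℝ X = n) {y : Fin n → X} {h : Fin n → (X →L[ℝ] ℝ)}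
    (H : IsConfig y h) {f g : X →L[ℝ] ℝ} (e : ∀ k, f (y k) = g (y k)) : f = g := by
  ext x
  rw [H.repr hn hX x]
  simp only [map_sum, map_smul, e]

theorem ext_pt (hn : 3 ≤ n) (hX : finrank ℝ X = n) {y : Fin n → X} {h : Fin n → (X →L[ℝ] ℝ)}
    (H : IsConfig y h) {x z : X} (e : ∀ k, h k x = h k z) : x = z := by
  rw [H.repr hn hX x, H.repr hn hX z]
  simp only [e]

theorem share (hn : n = 4 ∨ n = 5) (hX : finrank ℝ X = n)
    {y y' : Fin n → X} {h h' : Fin n → (X →L[ℝ] ℝ)} (H : IsConfig y h) (H' : IsConfig y' h') :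
    Sh h h' ∨ Sh y y' := by
  have hn3 : 3 ≤ n := by omega
  by_contra hcon
  simp only [Sh, not_or, not_forall] at hcon
  obtain ⟨⟨i, hi⟩, ⟨j, hj⟩⟩ := hcon
  rcases pair_sign hn (fun k => h i (y' k)) (fun k => h' k (y j)) (cross_sign hn hX H H' i)
    (fun k => cross_sign hn hX H' H k j) (i = j) (slack_identity hn3 hX H H' i j) with
    ⟨k, hk⟩ | ⟨k, hk⟩
  · refine hi ⟨k, hk.imp (fun e => ext_fun hn3 hX H' fun l => ?_)
      fun e => ext_fun hn3 hX H' fun l => ?_⟩
    · rw [e, H'.pair]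
    · rw [e, _root_.neg_apply, H'.pair]
  · refine hj ⟨k, hk.imp (fun e => ext_pt hn3 hX H' fun l => ?_)
      fun e => ext_pt hn3 hX H' fun l => ?_⟩
    · simp only [e, H'.pair, eq_comm]
    · simp only [e, map_neg, H'.pair, eq_comm]

theorem card_family (hn : n = 4 ∨ n = 5) (hX : finrank ℝ X = n) {ι : Type*} [Fintype ι]
    {y : ι → Fin n → X} {h : ι → Fin n → (X →L[ℝ] ℝ)} (H : ∀ q, IsConfig (y q) (h q))
    (hinj : ∀ q q', ∑ i, h q i = ∑ i, h q' i → q = q') : Fintype.card ι ≤ 2 ^ n := by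
  classical
  have hn3 : 3 ≤ n := by omega
  have hn2 : (0 : ℝ) < n - 2 := by
    have : (3 : ℝ) ≤ n := by exact_mod_cast hn3
    linarith
  have sh : ∀ q q', Sh (h q) (h q') → Sh (h q') (h q) := fun q q' =>
    Sh.symm hn3 (fun i => ((ContinuousLinearMap.apply ℝ ℝ (y q i) : (X →L[ℝ] ℝ) →L[ℝ] ℝ) :
      (X →L[ℝ] ℝ) →+ ℝ)) fun i j => by
        simpa [eq_comm] using (H q).pair j i
  have key : ∀ (v : ι → Fin n → ℝ), (∀ q k, v q k = n - 2 ∨ v q k = -(n - 2)) →
      Function.Injective v → Fintype.card ι ≤ 2 ^ n := by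
    intro v hv hi
    have := Fintype.card_le_of_injective (fun q k => decide (v q k = n - 2)) fun q q' e =>
      hi (funext fun k => by
        have e1 : v q k = n - 2 ↔ v q' k = n - 2 := decide_eq_decide.1 (congrFun e k)
        rcases hv q k with a | a <;> rcases hv q' k with b | b
        · rw [a, b]
        · rw [a, e1.1 a]
        · rw [b, e1.2 b]
        · rw [a, b])
    simpa using this
  rcases isEmpty_or_nonempty ι with _ | ⟨⟨q₀⟩⟩
  · simp
  by_cases hall : ∀ q, Sh (h q₀) (h q)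
  · refine key (fun q k => h q₀ k (∑ j, y q j)) (fun q k => ?_) fun q q' e => hinj _ _ ?_
    · obtain ⟨l, e | e⟩ := hall q k
      · left; rw [e, map_sum, (H q).sum_row]
      · right; rw [e, _root_.neg_apply, map_sum, (H q).sum_row]
    · refine sum_eq_of_close hn3 hX (H q) (H q') ?_
      rw [ext_pt hn3 hX (H q₀) (congrFun e), sub_self, norm_zero]
      have : (0 : ℝ) < n := by linarith
      positivity
  · obtain ⟨q₁, h1⟩ := not_forall.1 hall
    have h2 := (share hn hX (H q₀) (H q₁)).resolve_left h1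
    have hall' : ∀ q, Sh (y q₀) (y q) := fun q => by
      rcases share hn hX (H q₀) (H q) with a | a
      · exact h2.trans ((share hn hX (H q₁) (H q)).resolve_left fun b => h1 (a.trans (sh _ _ b)))
      · exact a
    refine key (fun q k => (∑ i, h q i) (y q₀ k)) (fun q k => ?_) fun q q' e => hinj _ _ ?_
    · obtain ⟨l, e | e⟩ := hall' q k
      · left; rw [e, _root_.sum_apply, (H q).sum_col]
      · right; rw [e, map_neg, _root_.sum_apply, (H q).sum_col]
    · exact ext_fun hn3 hX (H q₀) (congrFun e)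

theorem finset_le (hn : n = 4 ∨ n = 5) (hX : finrank ℝ X = n) (T : Finset (Submodule ℝ X))
    (hT : ∀ Y ∈ T, finrank ℝ Y = n - 1 ∧ projConst Y = 2 - 2 / n) : T.card ≤ 2 ^ (n - 1) := by
  classical
  have hn3 : 3 ≤ n := by omega
  have hn2 : (0 : ℝ) < n - 2 := by
    have : (3 : ℝ) ≤ n := by exact_mod_cast hn3
    linarith
  choose y h H hY using fun Y : T => exists_config hn3 hX Y.1 (hT Y.1 Y.2).1 (hT Y.1 Y.2).2
  let y' : T × Bool → Fin n → X := fun q => if q.2 then y q.1 else fun j => -y q.1 j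
  let h' : T × Bool → Fin n → (X →L[ℝ] ℝ) := fun q => if q.2 then h q.1 else fun j => -h q.1 j
  have H' : ∀ q, IsConfig (y' q) (h' q) := by
    rintro ⟨Y, _ | _⟩
    · exact (H Y).neg
    · exact H Y
  have hY' : ∀ q x, x ∈ q.1.1 ↔ (∑ i, h' q i) x = 0 := by
    rintro ⟨Y, _ | _⟩ x
    · rw [hY]; simp [h']
    · exact hY Y x
  have hb := card_family hn hX H' fun q q' heq => by
    have h1 : q.1 = q'.1 := by
      apply Subtype.ext
      ext x
      rw [hY', hY', heq]
    obtain ⟨Y, b⟩ := q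
    obtain ⟨Y', b'⟩ := q'
    simp only at h1
    subst h1
    have h2 := (H Y).sum_col ⟨0, by omega⟩
    have h3 := congrArg (fun g : X →L[ℝ] ℝ => g (y Y ⟨0, by omega⟩)) heq
    rcases b with _ | _ <;> rcases b' with _ | _
    · rfl
    · simp only [h', _root_.sum_apply, Bool.false_eq_true, if_false, if_true, _root_.neg_apply,
        Finset.sum_neg_distrib, h2] at h3
      linarith
    · simp only [h', _root_.sum_apply, Bool.false_eq_true, if_false, if_true, _root_.neg_apply,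
        Finset.sum_neg_distrib, h2] at h3
      linarith
    · rfl
  rw [Fintype.card_prod, Fintype.card_coe, Fintype.card_bool] at hb
  rcases hn with rfl | rfl <;> omega

theorem encard_le (hn : n = 4 ∨ n = 5) (hX : finrank ℝ X = n) :
    {Y : Submodule ℝ X | finrank ℝ Y = n - 1 ∧ projConst Y = 2 - 2 / (n : ℝ)}.encard ≤
      2 ^ (n - 1) := by
  have hfin : {Y : Submodule ℝ X | finrank ℝ Y = n - 1 ∧ projConst Y = 2 - 2 / (n : ℝ)}.Finite := by
    by_contra hinf
    obtain ⟨T, hT, hcard⟩ := Set.Infinite.exists_subset_card_eq hinf (2 ^ (n - 1) + 1)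
    have := finset_le hn hX T fun Y hY => hT hY
    omega
  rw [hfin.encard_eq_coe_toFinset_card]
  exact_mod_cast finset_le hn hX _ fun Y hY => by simpa using hY

/-- the functionals of the cube -/
def sgn {m : ℕ} (ε : Fin m → Bool) : Fin (m + 1) → ℝ := Fin.cons 1 fun i => if ε i then 1 else -1

theorem sgn_sq {m : ℕ} (ε : Fin m → Bool) (i : Fin (m + 1)) : sgn ε i * sgn ε i = 1 := by
  refine Fin.cases (by simp [sgn]) (fun i => ?_) i
  simp only [sgn, Fin.cons_succ]
  split_ifs <;> simp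

/-- the hyperplanes of the cube -/
noncomputable def cubeY {m : ℕ} (ε : Fin m → Bool) : Submodule ℝ (Fin (m + 1) → ℝ) :=
  LinearMap.ker (∑ i, sgn ε i • LinearMap.proj i : (Fin (m + 1) → ℝ) →ₗ[ℝ] ℝ)

theorem mem_cubeY {m : ℕ} (ε : Fin m → Bool) (x : Fin (m + 1) → ℝ) :
    x ∈ cubeY ε ↔ ∑ i, sgn ε i * x i = 0 := by
  simp [cubeY]

theorem cubeY_spec {m : ℕ} (hm : 2 ≤ m) (ε : Fin m → Bool) :
    finrank ℝ (cubeY ε) = m + 1 - 1 ∧ projConst (cubeY ε) = 2 - 2 / ((m + 1 : ℕ) : ℝ) := by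
  have ab : ∀ i, |sgn ε i| = 1 := fun i => by
    have := congrArg abs (sgn_sq ε i)
    rw [abs_mul, abs_one] at this
    nlinarith [abs_nonneg (sgn ε i)]
  constructor
  · have := Module.Dual.finrank_ker_add_one_of_ne_zero
      (f := (∑ i, sgn ε i • LinearMap.proj i : (Fin (m + 1) → ℝ) →ₗ[ℝ] ℝ)) fun h0 => by
        have h1 := (mem_cubeY ε (Pi.single 0 1)).1 (by rw [cubeY, h0]; simp)
        simp [Pi.single_apply, sgn] at h1
    rw [finrank_fin_fun] at this
    exact Nat.eq_sub_of_add_eq this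
  · refine H77.projConst_eq (ι := Fin (m + 1)) (κ := Fin (m + 1)) (by omega) (by simp)
      (g := fun i => sgn ε i • ContinuousLinearMap.proj i) (f := id)
      (U := fun j => Pi.single j (sgn ε j)) (fun k x => ?_) (fun x C hC hx => ?_) (fun i j => ?_)
      (fun k => Or.inl ⟨k, rfl⟩) _ fun x => by simp [mem_cubeY]
    · simpa [abs_mul, ab] using norm_le_pi_norm x k
    · exact (pi_norm_le_iff_of_nonneg hC).2 fun k => by simpa [abs_mul, ab] using hx k
    · by_cases e : j = i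
      · simp [e, sgn_sq]
      · simp [e, Ne.symm e]

theorem cubeY_inj {m : ℕ} : Function.Injective (cubeY (m := m)) := by
  intro ε ε' e
  funext i
  have h1 : Pi.single 0 (sgn ε i.succ) - Pi.single i.succ 1 ∈ cubeY ε := by
    simp [mem_cubeY, mul_sub, sum_sub_distrib, Pi.single_apply, sgn]
  rw [e, mem_cubeY] at h1
  simp only [Pi.sub_apply, mul_sub, sum_sub_distrib, Pi.single_apply, mul_ite, mul_zero, mul_one,
    sum_ite_eq', mem_univ, if_true, sgn, Fin.cons_zero, Fin.cons_succ] at h1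
  cases h2 : ε i <;> cases h3 : ε' i <;> simp [h2, h3] at h1 ⊢ <;> norm_num at h1

theorem cube_ge {m : ℕ} (hm : 2 ≤ m) : (2 : ℕ∞) ^ m ≤ {Y : Submodule ℝ (Fin (m + 1) → ℝ) |
    finrank ℝ Y = m + 1 - 1 ∧ projConst Y = 2 - 2 / ((m + 1 : ℕ) : ℝ)}.encard := by
  refine le_trans ?_ (Set.encard_le_encard (s := Set.range cubeY) ?_)
  · refine le_trans (le_of_eq ?_) cubeY_inj.encard_range
    simp
  · rintro _ ⟨ε, rfl⟩
    exact cubeY_spec hm ε

end Pool.Agent.MP_026d7f_an.H2

end
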