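import Mathlib
import Pool.Agent.MP_026d7f_an.Mg.H77_Space

namespace Pool.Agent.MP_026d7f_an.H77

open MeasureTheory ProbabilityTheory Real Set Module
open scoped RealInnerProductSpace

lemma frameLB_ge {n D : ℕ} {a s : ℝ} (hs : 1000 ≤ s) (ha : s ≤ a) (hn : (n : ℝ) = a ^ 8 * s ^ 8)
    (hlog : log (4 * n) ≤ s ^ 2) (hD : (D : ℝ) ≤ s ^ 2 * a ^ 4) :
    exp (-(n * a ^ 2 / 2)) * exp (-(n : ℝ)) / 2
      ≤ frameLB D s (a * √n * (1 + 2 * (1 / n * D))) (1 / n) := by
  have hs1 : 1 ≤ s := by linarith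
  have ha1 : 1 ≤ a := by linarith
  have hsq : √(n : ℝ) = a ^ 4 * s ^ 4 := by
    rw [hn, show a ^ 8 * s ^ 8 = (a ^ 4 * s ^ 4) ^ 2 by ring, Real.sqrt_sq (by positivity)]
  have hn0 : (0 : ℝ) < n := by rw [hn]; positivity
  have hmon : ∀ i j k l : ℕ, i ≤ k → j ≤ l → a ^ i * s ^ j ≤ a ^ k * s ^ l := fun i j k l h1 h2 =>
    mul_le_mul (pow_le_pow_right₀ ha1 h1) (pow_le_pow_right₀ hs1 h2) (by positivity) (by positivity)
  set M := a ^ 8 * s ^ 6 with hM
  have hD0 : (0 : ℝ) ≤ D := Nat.cast_nonneg D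
  have hM1 : 1 ≤ M := by simpa using hmon 0 0 8 6 (by norm_num) (by norm_num)
  have hnM : 100 * M ≤ n := by
    rw [hn, hM]
    have : 100 ≤ s ^ 2 := by nlinarith
    calc 100 * (a ^ 8 * s ^ 6) ≤ s ^ 2 * (a ^ 8 * s ^ 6) :=
          mul_le_mul_of_nonneg_right this (by positivity)
      _ = _ := by ring
  have hD2 : (D : ℝ) ^ 2 ≤ a ^ 8 * s ^ 4 := by
    calc (D : ℝ) ^ 2 ≤ (s ^ 2 * a ^ 4) ^ 2 := pow_le_pow_left₀ hD0 hD 2
      _ = _ := by ring
  have hDM : (D : ℝ) ≤ M := by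
    have := hmon 4 2 8 6 (by norm_num) (by norm_num); linarith
  have haDM : a ^ 2 * D ≤ M := by
    have := hmon 6 2 8 6 (by norm_num) (by norm_num)
    have h2 : a ^ 2 * D ≤ a ^ 2 * (s ^ 2 * a ^ 4) := mul_le_mul_of_nonneg_left hD (by positivity)
    nlinarith
  have hsDM : s ^ 2 * (D : ℝ) ^ 2 ≤ M := by
    calc s ^ 2 * (D : ℝ) ^ 2 ≤ s ^ 2 * (a ^ 8 * s ^ 4) := mul_le_mul_of_nonneg_left hD2 (by positivity)
      _ = M := by rw [hM]; ring
  set ρ := 1 / (n : ℝ) with hρ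
  have hρ0 : 0 < ρ := by positivity
  have hρn : ρ * n = 1 := by rw [hρ]; field_simp
  have hρ1 : ρ ≤ 1 := by rw [hρ, div_le_one hn0]; linarith
  set σ := ρ * D with hσ
  have hσ0 : 0 ≤ σ := by positivity
  have hσn : σ * n = D := by rw [hσ, mul_right_comm, hρn, one_mul]
  have hσ1 : σ ≤ 1 / 2 := by
    by_contra h
    push Not at h
    nlinarith
  set R := a * √n * (1 + 2 * σ) with hR
  have hR2 : R ^ 2 ≤ n * a ^ 2 + 6 * M := by
    have h1 : R ^ 2 = n * a ^ 2 * (1 + 2 * σ) ^ 2 := by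
      rw [hR, mul_pow, mul_pow, Real.sq_sqrt hn0.le]; ring
    have h2 : (1 + 2 * σ) ^ 2 ≤ 1 + 6 * σ := by nlinarith
    calc R ^ 2 ≤ n * a ^ 2 * (1 + 6 * σ) := by
          rw [h1]; exact mul_le_mul_of_nonneg_left h2 (by positivity)
      _ = n * a ^ 2 + 6 * (a ^ 2 * (σ * n)) := by ring
      _ ≤ _ := by rw [hσn]; linarith
  have hRρ : R * ρ ≤ 2 := by
    have h1 : a * √n ≤ n := by
      rw [hsq, hn]
      have := hmon 5 4 8 8 (by norm_num) (by norm_num)
      calc a * (a ^ 4 * s ^ 4) = a ^ 5 * s ^ 4 := by ring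
        _ ≤ _ := this
    have h2 : R ≤ n * 2 := mul_le_mul h1 (by linarith) (by positivity) hn0.le
    calc R * ρ ≤ n * 2 * ρ := mul_le_mul_of_nonneg_right h2 hρ0.le
      _ = 2 * (ρ * n) := by ring
      _ = 2 := by rw [hρn]; ring
  have ht : D * (s * √(10 * D) + ρ) ^ 2 ≤ 22 * M := by
    have h1 : (s * √(10 * D)) ^ 2 = 10 * s ^ 2 * D := by
      rw [mul_pow, Real.sq_sqrt (by positivity)]; ring
    have h2 : (s * √(10 * D) + ρ) ^ 2 ≤ 20 * s ^ 2 * D + 2 := by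
      nlinarith [sq_nonneg (s * √(10 * D) - ρ)]
    calc D * (s * √(10 * D) + ρ) ^ 2 ≤ D * (20 * s ^ 2 * D + 2) := mul_le_mul_of_nonneg_left h2 hD0
      _ = 20 * (s ^ 2 * (D : ℝ) ^ 2) + 2 * D := by ring
      _ ≤ _ := by linarith
  have hσ2 : (D : ℝ) ^ 2 * ρ ^ 2 ≤ 1 := by
    have : (D : ℝ) ^ 2 * ρ ^ 2 = σ ^ 2 := by rw [hσ]; ring
    nlinarith
  have hpow : exp (-M) ≤ (ρ / 4) ^ (D ^ 2) := by
    have h1 : ρ / 4 = exp (-log (4 * n)) := by
      rw [exp_neg, exp_log (by positivity), hρ]; field_simp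
    rw [h1, ← exp_nat_mul]
    apply exp_le_exp.2
    push_cast
    have h2 : (D : ℝ) ^ 2 * log (4 * n) ≤ (D : ℝ) ^ 2 * s ^ 2 :=
      mul_le_mul_of_nonneg_left hlog (by positivity)
    nlinarith
  rw [frameLB]
  apply div_le_div_of_nonneg_right _ (by norm_num)
  refine le_trans ?_ (mul_le_mul_of_nonneg_right hpow (exp_pos _).le)
  rw [← exp_add, ← exp_add]
  apply exp_le_exp.2
  nlinarith

theorem core {n : ℕ} {a s : ℝ} (hs : 1000 ≤ s) (ha : s ≤ a) (hn : (n : ℝ) = a ^ 8 * s ^ 8)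
    (hlog : log (4 * n) ≤ s ^ 2) (hexp : n * a * exp (-s / 4) ≤ 1 / 2) :
    ∃ (X : Type) (_ : NormedAddCommGroup X) (_ : NormedSpace ℝ X) (_ : FiniteDimensional ℝ X),
      finrank ℝ X = n ∧ ∃ T : Finset (Submodule ℝ X),
        (∀ Y ∈ T, finrank ℝ Y = n - 1 ∧ projConst Y = 2 - 2 / (n : ℝ)) ∧
        (a / 240) ^ n ≤ T.card := by
  classical
  have hs1 : 1 ≤ s := by linarith
  have ha1 : 1 ≤ a := by linarith
  have hsq : √(n : ℝ) = a ^ 4 * s ^ 4 := by
    rw [hn, show a ^ 8 * s ^ 8 = (a ^ 4 * s ^ 4) ^ 2 by ring, Real.sqrt_sq (by positivity)]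
  have hn0 : (0 : ℝ) < n := by rw [hn]; positivity
  have hmon : ∀ i j k l : ℕ, i ≤ k → j ≤ l → a ^ i * s ^ j ≤ a ^ k * s ^ l := fun i j k l h1 h2 =>
    mul_le_mul (pow_le_pow_right₀ ha1 h1) (pow_le_pow_right₀ hs1 h2) (by positivity) (by positivity)
  set D := ⌈512 * s * a ^ 4⌉₊ with hDdef
  have ha4 : 1 ≤ a ^ 4 := one_le_pow₀ ha1
  have hDl : 512 * s * a ^ 4 ≤ D := Nat.le_ceil _
  have hDu : (D : ℝ) ≤ s ^ 2 * a ^ 4 := by
    have h1 := (Nat.ceil_lt_add_one (a := 512 * s * a ^ 4) (by positivity)).le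
    have h2 : 1 ≤ s * a ^ 4 := by nlinarith
    have h3 : 513 * (s * a ^ 4) ≤ s * (s * a ^ 4) := mul_le_mul_of_nonneg_right (by linarith) (by positivity)
    nlinarith
  have hDs : s ≤ D := by nlinarith
  have hDpos : (0 : ℝ) < D := by linarith
  have hDn : (D : ℝ) * (a ^ 4 * s ^ 6) ≤ n := by
    calc (D : ℝ) * (a ^ 4 * s ^ 6) ≤ s ^ 2 * a ^ 4 * (a ^ 4 * s ^ 6) :=
          mul_le_mul_of_nonneg_right hDu (by positivity)
      _ = n := by rw [hn]; ring
  have h46 : 1000 ≤ a ^ 4 * s ^ 6 := by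
    have := hmon 0 1 4 6 (by norm_num) (by norm_num)
    simp at this; linarith
  have hDn2 : D + 3 ≤ n := by
    have : (D : ℝ) + 3 ≤ n := by nlinarith
    exact_mod_cast this
  have hD0 : 0 < D := by exact_mod_cast hDpos
  have hn3 : 3 ≤ n := by omega
  set ρ := 1 / (n : ℝ) with hρ
  have hρ0 : 0 < ρ := by positivity
  set σ := ρ * D with hσ
  have hσ0 : 0 ≤ σ := by positivity
  have hσa : σ * (a ^ 4 * s ^ 6) ≤ 1 := by
    rw [hσ, hρ, mul_assoc, one_div, inv_mul_le_iff₀ hn0]; linarith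
  have hσ1 : σ ≤ 1 / 2 := by nlinarith
  set R := a * √n * (1 + 2 * σ) with hR
  have hRl : a ^ 5 * s ^ 4 ≤ R := by
    rw [hR, hsq]
    have : 0 ≤ a * (a ^ 4 * s ^ 4) := by positivity
    nlinarith
  have hR0 : 0 < R := lt_of_lt_of_le (by positivity) hRl
  let E := EuclideanSpace ℝ (Fin n)
  have hE : finrank ℝ E = n := by simp [E]
  have hι : Fintype.card (Fin (n - D) ⊕ Fin D) = n := by simp; omega
  have hexp' : ∀ t : ℝ, s / 4 ≤ t → n * a * exp (-t) ≤ 1 / 2 := fun t ht =>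
    le_trans (mul_le_mul_of_nonneg_left (exp_le_exp.2 (by linarith)) (by positivity)) hexp
  have hexp'' : ∀ t : ℝ, s / 4 ≤ t → n * exp (-t) ≤ 1 / 2 := fun t ht => by
    refine le_trans ?_ (hexp' t ht)
    apply mul_le_mul_of_nonneg_right _ (exp_pos _).le
    nlinarith
  have hF := frame_prob (E := E) (μ := Fin (n - D)) (κ := Fin D) ⟨0, by omega⟩ ⟨0, hD0⟩
    (hE.trans hι.symm) (L := s) (R := R) (ρ := ρ) (r := a) hs1
    (by
      rw [Fintype.card_fin]
      have h1 : √(10 * (D : ℝ)) ≤ a ^ 4 * s ^ 3 := by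
        apply Real.sqrt_le_iff.2 ⟨by positivity, ?_⟩
        have h2 := hmon 4 3 8 6 (by norm_num) (by norm_num)
        have h3 : 10 * (s ^ 2 * a ^ 4) ≤ s * (s ^ 2 * a ^ 4) :=
          mul_le_mul_of_nonneg_right (by linarith) (by positivity)
        nlinarith
      have h2 := hmon 4 4 5 4 (by norm_num) (by norm_num)
      calc s * √(10 * (D : ℝ)) ≤ s * (a ^ 4 * s ^ 3) := mul_le_mul_of_nonneg_left h1 (by positivity)
        _ = a ^ 4 * s ^ 4 := by ring
        _ ≤ R := h2.trans hRl)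
    hρ0.le (by rw [Fintype.card_fin]; exact hσ1) (by linarith)
    (by
      rw [hι, Fintype.card_fin, hR, mul_assoc _ (1 + 2 * σ)]
      apply le_mul_of_one_le_right (by positivity)
      change 1 ≤ (1 + 2 * σ) * (1 - σ)
      nlinarith)
    (by
      rw [hι, Fintype.card_fin]
      refine le_trans ?_ (hexp'' (D / 4) (by linarith))
      apply mul_le_mul_of_nonneg_left _ hn0.le
      rw [show -((D : ℝ) / 4) = D * (-(1 / 4)) by ring, exp_nat_mul]
      apply pow_le_pow_left₀ (by norm_num)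
      linarith [Real.add_one_le_exp (-(1 / 4) : ℝ)])
    (by
      rw [hι, neg_div]
      exact hexp'' _ (by nlinarith))
  rw [Fintype.card_fin] at hF
  have hLB := (frameLB_ge hs ha hn hlog hDu).trans hF
  set p := 5 * exp (-a ^ 2 / 2) / a with hp
  set x := a * exp (a ^ 2 / 2) / 10 with hx
  have hex : 1 ≤ exp (a ^ 2 / 2) := one_le_exp (by positivity)
  have hx1 : 1 ≤ x := by rw [hx]; nlinarith
  have hpx : p * x = 1 / 2 := by
    rw [hp, hx, neg_div, exp_neg]; field_simp; norm_num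
  have hp0 : 0 < p := by positivity
  set q := ⌊x⌋₊
  have hq1 : (q : ℝ) ≤ x := Nat.floor_le (by linarith)
  have hq2 : x / 2 ≤ q := by
    have h1 := Nat.lt_floor_add_one x
    have h2 : 1 ≤ q := Nat.le_floor (by simpa using hx1)
    have h3 : (1 : ℝ) ≤ q := by exact_mod_cast h2
    change x < q + 1 at h1
    linarith
  have hp1 : p ≤ 1 / 2 := by nlinarith
  have hbern : (1 / 2 : ℝ) ≤ (1 - p) ^ q := by
    have := one_add_mul_le_pow (a := -p) (by linarith) q
    have h2 : (q : ℝ) * p ≤ 1 / 2 := by nlinarith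
    rw [← sub_eq_add_neg] at this
    linarith
  have hG : ∀ φ : Fin (n - D) ⊕ Fin D → Fin q,
      (1 / 2) ^ n * (exp (-(n * a ^ 2 / 2)) * exp (-(n : ℝ)) / 2) ≤
      (Measure.pi fun _ : (Fin (n - D) ⊕ Fin D) × Fin q => stdGaussian E).real
        (Good φ (4 / √D) (2 / n)) := by
    intro φ
    refine le_trans ?_ (good_prob φ (r := a) (ζ := (5 * s / R + 2 * (ρ * D)) / a) (p := p)
      (by linarith) ?_ hp0.le)
    · apply mul_le_mul _ hLB (by positivity) (pow_nonneg (by linarith) _)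
      rw [hι, mul_comm n q, pow_mul]
      exact pow_le_pow_left₀ (by norm_num) hbern n
    · intro u hu hy hζ
      apply bad_prob hu hy hζ (by linarith) _ hs1
      · have h1 : 5 * s / R ≤ 5 / (a ^ 5 * s ^ 3) := by
          rw [div_le_div_iff₀ hR0 (by positivity)]; nlinarith
        have h2 : σ ≤ 1 / (a ^ 4 * s ^ 6) := by rw [le_div_iff₀ (by positivity)]; exact hσa
        have h3 : 16 * a ^ 4 * ((5 / (a ^ 5 * s ^ 3) + 2 * (1 / (a ^ 4 * s ^ 6))) / a)
            = 80 / (a ^ 2 * s ^ 3) + 32 / (a ^ 1 * s ^ 6) := by field_simp; ring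
        have h4 := hmon 0 1 2 3 (by norm_num) (by norm_num)
        have h5 := hmon 0 1 1 6 (by norm_num) (by norm_num)
        simp only [pow_zero, pow_one, one_mul] at h4 h5
        have h6 : 80 / (a ^ 2 * s ^ 3) ≤ 1 / 2 := by
          rw [div_le_iff₀ (by positivity)]; linarith
        have h7 : 32 / (a ^ 1 * s ^ 6) ≤ 1 / 2 := by
          rw [div_le_iff₀ (by positivity), pow_one]; linarith
        calc 16 * a ^ 4 * ((5 * s / R + 2 * σ) / a)
            ≤ 16 * a ^ 4 * ((5 / (a ^ 5 * s ^ 3) + 2 * (1 / (a ^ 4 * s ^ 6))) / a) := by gcongr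
          _ ≤ 1 := by rw [h3]; linarith
      · rw [div_pow, Real.sq_sqrt hDpos.le, ← mul_div_assoc, div_le_one hDpos]
        linarith
      · rw [hι, neg_div]
        linarith [hexp' (s / 2) (by linarith)]
      · rw [div_le_div_iff₀ hn0 (by positivity), hn]
        have h1 := hmon 2 1 8 8 (by norm_num) (by norm_num)
        have h2 : a ^ 2 * 2 ≤ a ^ 2 * s := mul_le_mul_of_nonneg_left (by linarith) (by positivity)
        rw [pow_one] at h1
        linarith
  obtain ⟨ω, hω⟩ := exists_pool q hG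
  rw [hι] at hω
  have hfin : (a / 240) ^ n ≤
      (q : ℝ) ^ n * ((1 / 2) ^ n * (exp (-(n * a ^ 2 / 2)) * exp (-(n : ℝ)) / 2)) := by
    have h1 : exp (-(n * a ^ 2 / 2)) = exp (-(a ^ 2 / 2)) ^ n := by
      rw [← exp_nat_mul]; congr 1; ring
    have h2 : exp (-(n : ℝ)) = exp (-1) ^ n := by rw [← exp_nat_mul]; congr 1; ring
    have h3 : (1 / 2 : ℝ) ^ n ≤ 1 / 2 := pow_le_of_le_one (by norm_num) (by norm_num) (by omega)
    have h4 : 1 / 3 ≤ exp (-1) := by
      rw [exp_neg, one_div]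
      exact inv_anti₀ (exp_pos _) (by linarith [Real.exp_one_lt_d9])
    have h5 : a / 240 ≤ q * (1 / 2) * exp (-(a ^ 2 / 2)) * exp (-1) * (1 / 2) := by
      have h6 : a / 20 ≤ q * exp (-(a ^ 2 / 2)) := by
        calc a / 20 = x / 2 * exp (-(a ^ 2 / 2)) := by rw [hx, exp_neg]; field_simp; norm_num
          _ ≤ _ := mul_le_mul_of_nonneg_right hq2 (exp_pos _).le
      have h7 : a / 20 * (1 / 3) ≤ q * exp (-(a ^ 2 / 2)) * exp (-1) :=
        mul_le_mul h6 h4 (by norm_num) (by positivity)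
      linarith
    calc (a / 240) ^ n ≤ (q * (1 / 2) * exp (-(a ^ 2 / 2)) * exp (-1) * (1 / 2)) ^ n :=
          pow_le_pow_left₀ (by positivity) h5 n
      _ = (q : ℝ) ^ n * ((1 / 2) ^ n * (exp (-(a ^ 2 / 2)) ^ n * exp (-1) ^ n * (1 / 2) ^ n)) := by
          simp only [mul_pow]; ring
      _ ≤ _ := by
          rw [h1, h2]
          have h8 := mul_le_mul_of_nonneg_left h3
            (show 0 ≤ exp (-(a ^ 2 / 2)) ^ n * exp (-1) ^ n by positivity)
          apply mul_le_mul_of_nonneg_left _ (by positivity)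
          apply mul_le_mul_of_nonneg_left _ (by positivity)
          linarith
  have hle := hfin.trans hω
  obtain ⟨X, i1, i2, i3, hX, T, hT, hc⟩ := exists_space hn3 hι hE ω
    (Finset.univ.filter fun φ => ω ∈ Good φ (4 / √D) (2 / n))
    (fun φ hφ => (Finset.mem_filter.1 hφ).2) (by
      rw [← Finset.card_pos]
      have : (0 : ℝ) < (a / 240) ^ n := by positivity
      exact_mod_cast this.trans_le hle)
  exact ⟨X, i1, i2, i3, hX, T, hT, by rw [hc]; exact hle⟩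

theorem main {c : ℝ} (hc : c < 1 / 8) : ∀ᶠ n : ℕ in Filter.atTop,
    ∃ (X : Type) (_ : NormedAddCommGroup X) (_ : NormedSpace ℝ X) (_ : FiniteDimensional ℝ X),
      finrank ℝ X = n ∧ ∃ T : Finset (Submodule ℝ X),
        (∀ Y ∈ T, finrank ℝ Y = n - 1 ∧ projConst Y = 2 - 2 / (n : ℝ)) ∧
        (n : ℝ) ^ (c * n) ≤ T.card := by
  obtain ⟨k, hk⟩ := exists_nat_gt (2 / (1 - 8 * c))
  have hc0 : 0 < 1 - 8 * c := by linarith
  rw [div_lt_iff₀ hc0] at hk
  have hkc : (8 * (k + 1) + 8 : ℝ) * c ≤ k := by nlinarith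
  set e : ℕ := 8 * (k + 1) + 8 with he
  have he0 : (0 : ℝ) < e := by rw [he]; positivity
  have ht : Filter.Tendsto (fun n : ℕ => (n : ℝ) ^ ((e : ℝ)⁻¹)) Filter.atTop Filter.atTop :=
    (tendsto_rpow_atTop (inv_pos.2 he0)).comp tendsto_natCast_atTop_atTop
  have hx : Filter.Tendsto (fun s : ℝ => s ^ (((e + k + 1 : ℕ) : ℝ)) * exp (-(1 / 4) * s))
      Filter.atTop (nhds 0) := tendsto_rpow_mul_exp_neg_mul_atTop_nhds_zero _ _ (by norm_num)
  have h1 := ht.eventually (Filter.eventually_ge_atTop (1000 + e : ℝ))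
  have h2 := ht.eventually (hx.eventually (ge_mem_nhds (show (0 : ℝ) < 1 / 2 by norm_num)))
  filter_upwards [h1, h2] with n h1 h2
  set s := (n : ℝ) ^ ((e : ℝ)⁻¹) with hs
  have hs1 : 1000 ≤ s := by linarith
  have hsn : s ^ e = n := Real.rpow_inv_natCast_pow (Nat.cast_nonneg n) (by omega)
  have hn : (n : ℝ) = (s ^ (k + 1)) ^ 8 * s ^ 8 := by rw [← hsn, he]; ring
  obtain ⟨X, i1, i2, i3, hX, T, hT, hcard⟩ := core (n := n) (a := s ^ (k + 1)) (s := s) hs1
    (le_self_pow₀ (by linarith) (by omega)) hn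
    (by
      rw [← hsn, log_mul (by norm_num) (by positivity), log_pow]
      have h3 := Real.log_le_sub_one_of_pos (show (0 : ℝ) < 4 by norm_num)
      have h4 := Real.log_le_sub_one_of_pos (show (0 : ℝ) < s by linarith)
      have h5 : (e : ℝ) * log s ≤ e * s := mul_le_mul_of_nonneg_left (by linarith) he0.le
      nlinarith)
    (by
      rw [Real.rpow_natCast] at h2
      refine le_trans (le_of_eq ?_) h2
      have h9 : s ^ (e + k + 1) = (n : ℝ) * s ^ (k + 1) := by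
        rw [add_assoc, pow_add, hsn]
      rw [h9, show -s / 4 = -(1 / 4) * s by ring])
  refine ⟨X, i1, i2, i3, hX, T, hT, le_trans ?_ hcard⟩
  rw [Real.rpow_mul (Nat.cast_nonneg n), Real.rpow_natCast]
  apply pow_le_pow_left₀ (by positivity)
  calc (n : ℝ) ^ c = s ^ ((e : ℝ) * c) := by
        rw [Real.rpow_mul (by linarith), Real.rpow_natCast, hsn]
    _ ≤ s ^ (k : ℝ) := by
        apply Real.rpow_le_rpow_of_exponent_le (by linarith)
        rw [he]; push_cast; exact hkc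
    _ = s ^ k := Real.rpow_natCast _ _
    _ ≤ s ^ (k + 1) / 240 := by
        rw [pow_succ, le_div_iff₀ (by norm_num)]
        exact mul_le_mul_of_nonneg_left (by linarith) (by positivity)

end Pool.Agent.MP_026d7f_an.H77
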